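import Pool.Agent.H27.HP.RAP

/-!
Row COP of MP_8352e3_an: asymptotics of the optimal constant and of the extremals, `p > 2`.
-/

set_option autoImplicit false

namespace Pool.Agent.H27.HP
open MeasureTheory Set Filter Topology Pool.Agent.H80.HS Pool.Agent.H93.HQ Pool.Agent.H27.HB
open scoped ContDiff ENNReal

/-- Existence of a centred nonnegative extremal. -/
lemma cop_exist (hEXP : T_EXP) (hSGN : T_SGN) (hCLA : T_CLA) (hCLC : T_CLC) {n : ℕ}
    (hn : 1 ≤ n) {p S : ℝ} (hp2 : 2 ≤ p) (hpQ : p < 2 * n + 2) (hS : Opt n p S) :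
    ∃ (U : H n → ℝ) (g : H n → G n), Ext p S U g ∧ (∀ z, 0 ≤ U z) ∧
      Cen (fun z => |U z| ^ ps n p) := by
  have hp : 1 < p := by linarith
  obtain ⟨u, g, hu, hc⟩ := hEXP n hn p S hp2 hpQ hS
  rcases hSGN n hn p S hp hpQ hS u g hu with h | h
  · obtain ⟨h1, h2⟩ := fin_pos hCLC hn hp hpQ hu h
    refine ⟨_, g, h1, fun z => le_max_right _ _, fin_cen_congr hc ?_⟩
    filter_upwards [h2] with z hz
    rw [← hz]
  · have h' : ∀ᵐ z, 0 ≤ (-1) * u z := by
      filter_upwards [h] with z hz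
      linarith
    obtain ⟨h1, h2⟩ := fin_pos hCLC hn hp hpQ (fin_ext_neg hCLA hn hp hpQ hu) h'
    refine ⟨_, _, h1, fun z => le_max_right _ _, fin_cen_congr hc ?_⟩
    filter_upwards [h2] with z hz
    rw [← hz]
    simp

theorem pf_COP (hRAP : T_RAP) (hLOP : T_LOP) (hUCL : T_UCL) (hUTP : T_UTP) (hOPT : T_OPT)
    (hCLA : T_CLA) (hSOB : T_SOB) (hEXP : T_EXP) (hSGN : T_SGN) (hCLC : T_CLC) : T_COP := by
  intro n hn
  have hn' : (1 : ℝ) ≤ n := by exact_mod_cast hn
  obtain ⟨A1, δ1, hA1, hδ1, hδ1', hR⟩ := hRAP n hn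
  obtain ⟨A0, hA0, hU2⟩ := hUTP n hn
  obtain ⟨A2, hA2, hL⟩ := hLOP n hn A0
  obtain ⟨L, M', hLp, hLM⟩ := hOPT n hn 2 (17 / 8) (by norm_num) (by norm_num) (by linarith)
  have hA01 : 1 ≤ A0 := by
    obtain ⟨h1, h2, -, -⟩ := hU2 2 le_rfl (by norm_num)
    have h3 : A0⁻¹ ≤ A0 := h1.trans h2
    by_contra h
    rw [not_le] at h
    have h4 : 1 < A0⁻¹ := (one_lt_inv₀ hA0).2 h
    linarith
  set K3 : ℝ := max 1 (1 / L) with hK3
  have hK31 : 1 ≤ K3 := le_max_left _ _
  set B1 : ℝ := max 1 A1 with hB1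
  have hB11 : 1 ≤ B1 := le_max_left _ _
  set C3 : ℝ := 18 * (n : ℝ) ^ 2 * A2 * (2 * B1) ^ 2 + A2 * (2 * B1) with hC3
  have hC30 : 0 < C3 := by positivity
  obtain ⟨δ, hδ⟩ : ∃ δ : ℝ, δ = δ1 := ⟨_, rfl⟩
  have hδ0 : 0 < δ := by rw [hδ]; exact hδ1
  have core : ∀ p S : ℝ, 2 < p → p < 2 + δ → Opt n p S → ∀ (U : H n → ℝ) (g : H n → G n),
      Ext p S U g → (∀ᵐ z, 0 ≤ U z) → Cen (fun z => |U z| ^ ps n p) →
      Rq n p - S ≤ C3 * A0 * (p - 2) ^ 2 ∧
      ms (ps n p) (fun z => U z - yq n (ps n p) z) ^ (1 / ps n p) ≤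
        A0 * K3 * (2 * B1) * (p - 2) := by
    intro p S hp1 hp2 hS U g hU hU0 hUc
    rw [hδ] at hp2
    have hp8 : p < 2 + 1 / 8 := by linarith
    obtain ⟨hq2, hq4, hth⟩ := rap_exp hn hp1 hp8
    have hth1 : th n p ≤ 1 := by
      unfold th
      rw [div_le_iff₀ (by positivity)]
      linarith
    have hpQ : p < 2 * n + 2 := by linarith
    have hp11 : 1 < p := by linarith
    have hp0 : 0 < p := by linarith
    have hex := fin_exp hn hp11 hpQ
    have hq0 : 0 < ps n p := by linarith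
    obtain ⟨hMl, hMu, hEu, -⟩ := hU2 p hp1.le (by linarith)
    set M : ℝ := ms (ps n p) (u0 n) with hM
    have hM0 : 0 < M := (inv_pos.2 hA0).trans_le hMl
    set c : ℝ := M ^ (1 / ps n p) with hc
    have hc0 : 0 < c := Real.rpow_pos_of_pos hM0 _
    have hcinv : M ^ (-(1 / ps n p)) * c = 1 := by
      rw [hc, ← Real.rpow_add hM0]
      simp
    set v : H n → ℝ := fun z => c * U z with hv
    set gv : H n → G n := fun z => c • g z with hgv
    have hvE : Ext p S (fun z => M ^ (-(1 / ps n p)) * v z)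
        (fun z => M ^ (-(1 / ps n p)) • gv z) := by
      have h1 : (fun z => M ^ (-(1 / ps n p)) * v z) = U := by
        ext z
        simp only [hv]
        rw [← mul_assoc, hcinv, one_mul]
      have h2 : (fun z => M ^ (-(1 / ps n p)) • gv z) = g := by
        ext1 z
        simp only [hgv]
        rw [smul_smul, hcinv, one_smul]
      rw [h1, h2]
      exact hU
    have hvcl : Cl p v gv := fin_cl_smul hCLA hn hp11 hpQ hU.1 c
    have hv0 : ∀ᵐ z, 0 ≤ v z := by
      filter_upwards [hU0] with z hz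
      exact mul_nonneg hc0.le hz
    have hcq : |c| ^ ps n p = M := by
      rw [abs_of_pos hc0, hc, ← Real.rpow_mul hM0.le, one_div, inv_mul_cancel₀ hq0.ne',
        Real.rpow_one]
    have hvms : ms (ps n p) v = M := by
      rw [hv, fin_ms_mul, hU.2.1, mul_one, hcq]
    have hvc : Cen (fun z => |v z| ^ ps n p) := by
      intro i b
      have h2 : ∀ z, |v z| ^ ps n p * rz i b z = M * (|U z| ^ ps n p * rz i b z) := by
        intro z
        simp only [hv]
        rw [abs_mul, Real.mul_rpow (abs_nonneg _) (abs_nonneg _), hcq]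
        ring
      simp only [h2]
      rw [integral_const_mul, hUc i b, mul_zero]
    have hcp : |c| ^ p = M ^ th n p := by
      rw [abs_of_pos hc0, hc, ← Real.rpow_mul hM0.le]
      congr 1
      have h3 := hex.2.2
      field_simp
      linarith
    have hgve : en p gv = S * M ^ th n p := by
      rw [hgv, fin_en_smul, hU.2.2, hcp]
      ring
    have hcl0 : Cl p (u0 n) (hg (u0 n)) := (hUCL n hn p (by linarith) (by linarith)).1
    have hSR := hSOB n hn p S hp11 hpQ hS (u0 n) _ hcl0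
    have hN := hR p S hp1 hp2 hS v gv hvE hv0 hvc
    obtain ⟨hint, hl2, hl3, hl4⟩ := hL p S hp1 (by linarith) hS v gv hvcl hv0 hvms
      (by rw [hgve]; exact hSR.trans hEu)
    have hN0 : 0 ≤ N2 p gv := integral_nonneg fun z => by positivity
    have hNsq : N2 p gv = Real.sqrt (N2 p gv) ^ 2 := (Real.sq_sqrt hN0).symm
    set m : ℝ := Real.sqrt (N2 p gv) with hm
    have hm0 : 0 ≤ m := Real.sqrt_nonneg _
    have h2p : 0 < p - 2 := by linarith
    -- powers of the small quantity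
    have hm2p : N2 p gv ^ (1 / p) ≤ 2 * B1 * (p - 2) := by
      have h1 : N2 p gv ≤ (B1 * (p - 2)) ^ (2 : ℝ) := by
        rw [hNsq, Real.rpow_ofNat]
        refine pow_le_pow_left₀ hm0 (hN.trans ?_) 2
        exact mul_le_mul_of_nonneg_right (le_max_right _ _) h2p.le
      have hb0 : 0 < B1 * (p - 2) := by positivity
      calc N2 p gv ^ (1 / p) ≤ ((B1 * (p - 2)) ^ (2 : ℝ)) ^ (1 / p) :=
            Real.rpow_le_rpow hN0 h1 (by positivity)
        _ = (B1 * (p - 2)) * (B1 * (p - 2)) ^ (-((p - 2) / p)) := by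
            rw [← Real.rpow_mul hb0.le]
            nth_rewrite 2 [← Real.rpow_one (B1 * (p - 2))]
            rw [← Real.rpow_add hb0]
            congr 1
            field_simp
            ring
        _ ≤ (B1 * (p - 2)) * 2 := by
            refine mul_le_mul_of_nonneg_left ?_ hb0.le
            have h2 : (B1 * (p - 2)) ^ (-((p - 2) / p)) ≤ (p - 2) ^ (-((p - 2) / p)) :=
              Real.rpow_le_rpow_of_nonpos h2p (le_mul_of_one_le_left h2p.le hB11)
                (by have : 0 < (p - 2) / p := by positivity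
                    linarith)
            have h3 : (p - 2) ^ (-((p - 2) / p)) ≤ (p - 2) ^ (-(p - 2)) := by
              refine Real.rpow_le_rpow_of_exponent_ge h2p (by linarith) ?_
              have : (p - 2) / p ≤ p - 2 := div_le_self h2p.le hp11.le
              linarith
            exact (h2.trans h3).trans (rap_ee h2p)
        _ = _ := by ring
    have hm2q : N2 p gv ^ (2 / p) ≤ (2 * B1 * (p - 2)) ^ 2 := by
      have h1 : N2 p gv ^ (2 / p) = (N2 p gv ^ (1 / p)) ^ 2 := by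
        rw [← Real.rpow_natCast, ← Real.rpow_mul hN0]
        congr 1
        push_cast
        ring
      rw [h1]
      exact pow_le_pow_left₀ (Real.rpow_nonneg hN0 _) hm2p 2
    have hMth : A0⁻¹ ≤ M ^ th n p := by
      have hi : A0⁻¹ ≤ 1 := inv_le_one_of_one_le₀ hA01
      calc A0⁻¹ = A0⁻¹ ^ (1 : ℝ) := (Real.rpow_one _).symm
        _ ≤ A0⁻¹ ^ th n p := Real.rpow_le_rpow_of_exponent_ge (inv_pos.2 hA0) hi hth1
        _ ≤ M ^ th n p := Real.rpow_le_rpow (inv_pos.2 hA0).le hMl (by linarith)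
    have hMthp : 0 < M ^ th n p := Real.rpow_pos_of_pos hM0 _
    constructor
    · -- the constant
      have h1 : en p (hg (u0 n)) = Rq n p * M ^ th n p := by
        unfold Rq
        rw [div_mul_cancel₀]
        exact hMthp.ne'
      have h2 : 0 ≤ 6 ^ (2 - p) * N2 p gv := by positivity
      have h3 : p * (4 * (n : ℝ) ^ 2) * ((ps n p - 1) / 2) *
          (∫ z, bb (ps n p) (u0 n z) (v z) * (v z - u0 n z) ^ 2) ≤
          18 * (n : ℝ) ^ 2 * (A2 * (2 * B1 * (p - 2)) ^ 2) := by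
        have h4 : p * (4 * (n : ℝ) ^ 2) * ((ps n p - 1) / 2) ≤ 18 * (n : ℝ) ^ 2 := by
          have h5 : p * ((ps n p - 1) / 2) ≤ (9 / 4) * 2 :=
            mul_le_mul (by linarith) (by linarith) (by linarith) (by norm_num)
          have h6 : 0 ≤ 4 * (n : ℝ) ^ 2 := by positivity
          have h7 := mul_le_mul_of_nonneg_right h5 h6
          calc p * (4 * (n : ℝ) ^ 2) * ((ps n p - 1) / 2) =
                p * ((ps n p - 1) / 2) * (4 * (n : ℝ) ^ 2) := by ring
            _ ≤ (9 / 4) * 2 * (4 * (n : ℝ) ^ 2) := h7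
            _ = _ := by ring
        have h7 : 0 ≤ p * (4 * (n : ℝ) ^ 2) * ((ps n p - 1) / 2) := by
          have : 0 < ps n p - 1 := by linarith
          positivity
        have h8 : A2 * N2 p gv ^ (2 / p) ≤ A2 * (2 * B1 * (p - 2)) ^ 2 :=
          mul_le_mul_of_nonneg_left hm2q hA2.le
        calc _ ≤ p * (4 * (n : ℝ) ^ 2) * ((ps n p - 1) / 2) * (A2 * (2 * B1 * (p - 2)) ^ 2) :=
              mul_le_mul_of_nonneg_left (hl3.trans h8) h7
          _ ≤ _ := mul_le_mul_of_nonneg_right h4 (by positivity)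
      have h4 : (Rq n p - S) * M ^ th n p ≤ C3 * (p - 2) ^ 2 := by
        rw [hgve, h1] at hl4
        have h6 : A2 * (p - 2) * N2 p gv ^ (1 / p) ≤ A2 * (p - 2) * (2 * B1 * (p - 2)) :=
          mul_le_mul_of_nonneg_left hm2p (by positivity)
        have h7 : C3 * (p - 2) ^ 2 = 18 * (n : ℝ) ^ 2 * (A2 * (2 * B1 * (p - 2)) ^ 2) +
            A2 * (p - 2) * (2 * B1 * (p - 2)) := by
          rw [hC3]; ring
        rw [h7]
        linarith
      have h5 : Rq n p - S ≤ C3 * (p - 2) ^ 2 / M ^ th n p := by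
        rw [le_div_iff₀ hMthp]
        exact h4
      refine h5.trans ?_
      rw [div_le_iff₀ hMthp]
      have h6 : 1 ≤ A0 * M ^ th n p := by
        have := mul_le_mul_of_nonneg_left hMth hA0.le
        rwa [mul_inv_cancel₀ hA0.ne'] at this
      have h7 : 0 ≤ C3 * (p - 2) ^ 2 := by positivity
      calc C3 * (p - 2) ^ 2 ≤ C3 * (p - 2) ^ 2 * (A0 * M ^ th n p) :=
            le_mul_of_one_le_right h7 h6
        _ = _ := by ring
    · -- the extremals
      set w : H n → ℝ := fun z => 1 * v z + (-1) * u0 n z with hw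
      have hwcl := hCLA n hn p hp11 hpQ _ _ _ _ 1 (-1) hvcl hcl0
      have hs := hSOB n hn p S hp11 hpQ hS _ _ hwcl
      have hge : (fun z => (1 : ℝ) • gv z + (-1 : ℝ) • hg (u0 n) z) =
          fun z => gv z - hg (u0 n) z := by
        ext1 z
        rw [one_smul, neg_smul, one_smul, sub_eq_add_neg]
      rw [hge] at hs
      have hLS : L ≤ S := ((hLM p hp1.le (by linarith)).2 S hS).1
      have hmw0 : 0 ≤ ms (ps n p) w := integral_nonneg fun z => Real.rpow_nonneg (abs_nonneg _) _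
      have h1 : ms (ps n p) w ^ th n p ≤ K3 * N2 p gv := by
        have h2 : L * ms (ps n p) w ^ th n p ≤ N2 p gv :=
          (mul_le_mul_of_nonneg_right hLS (Real.rpow_nonneg hmw0 _)).trans (hs.trans hl2)
        have h4 : ms (ps n p) w ^ th n p ≤ 1 / L * N2 p gv := by
          rw [one_div, ← div_eq_inv_mul, le_div_iff₀ hLp]
          linarith
        exact h4.trans (mul_le_mul_of_nonneg_right (le_max_right _ _) hN0)
      have h2 : ms (ps n p) w ^ (1 / ps n p) ≤ K3 * (2 * B1 * (p - 2)) := by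
        have h5 : ms (ps n p) w ^ (1 / ps n p) = (ms (ps n p) w ^ th n p) ^ (1 / p) := by
          rw [← Real.rpow_mul hmw0]
          congr 1
          have h6 := hex.2.2
          field_simp
          linarith
        rw [h5]
        calc (ms (ps n p) w ^ th n p) ^ (1 / p) ≤ (K3 * N2 p gv) ^ (1 / p) :=
              Real.rpow_le_rpow (Real.rpow_nonneg hmw0 _) h1 (by positivity)
          _ = K3 ^ (1 / p) * N2 p gv ^ (1 / p) := Real.mul_rpow (by linarith) hN0
          _ ≤ K3 * (2 * B1 * (p - 2)) := by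
              refine mul_le_mul ?_ hm2p (Real.rpow_nonneg hN0 _) (by linarith)
              calc K3 ^ (1 / p) ≤ K3 ^ (1 : ℝ) := Real.rpow_le_rpow_of_exponent_le hK31 (by
                    rw [div_le_one hp0]; exact hp11.le)
                _ = K3 := Real.rpow_one _
      have h3 : (fun z => U z - yq n (ps n p) z) = fun z => M ^ (-(1 / ps n p)) * w z := by
        ext z
        simp only [hw, hv, yq]
        have : M ^ (-(1 / ps n p)) * (1 * (c * U z) + -1 * u0 n z) =
            (M ^ (-(1 / ps n p)) * c) * U z - M ^ (-(1 / ps n p)) * u0 n z := by ring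
        rw [this, hcinv, one_mul]
      have hMn : 0 < M ^ (-(1 / ps n p)) := Real.rpow_pos_of_pos hM0 _
      rw [h3, fin_ms_mul, abs_of_pos hMn, Real.mul_rpow (Real.rpow_nonneg hMn.le _) hmw0,
        ← Real.rpow_mul hMn.le, mul_one_div, div_self hq0.ne', Real.rpow_one]
      have h4 : M ^ (-(1 / ps n p)) ≤ A0 := by
        rw [Real.rpow_neg hM0.le, ← Real.inv_rpow hM0.le]
        have hMi : M⁻¹ ≤ A0 := by
          rw [inv_le_comm₀ hM0 hA0]; exact hMl
        calc M⁻¹ ^ (1 / ps n p) ≤ A0 ^ (1 / ps n p) :=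
              Real.rpow_le_rpow (inv_pos.2 hM0).le hMi (by positivity)
          _ ≤ A0 ^ (1 : ℝ) := Real.rpow_le_rpow_of_exponent_le hA01 (by
              rw [div_le_one hq0]; linarith)
          _ = A0 := Real.rpow_one _
      calc M ^ (-(1 / ps n p)) * ms (ps n p) w ^ (1 / ps n p) ≤ A0 * (K3 * (2 * B1 * (p - 2))) :=
            mul_le_mul h4 h2 (Real.rpow_nonneg hmw0 _) hA0.le
        _ = _ := by ring
  refine ⟨C3 * A0 / L ^ 2 + A0 * K3 * (2 * B1), δ, by positivity, hδ0, by rw [hδ]; exact hδ1', ?_⟩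
  intro p S hp1 hp2 hS
  have h2p : 0 < p - 2 := by linarith
  have hδ8 : δ ≤ 1 / 8 := by rw [hδ]; exact hδ1'
  have hp11 : 1 < p := by linarith
  obtain ⟨-, -, -, hRK, hK0, hSR⟩ := hUCL n hn p (by linarith) (by linarith)
  have hS0 : 0 < S := hS.1
  have hSR' := hSR S hS
  have hR0 : 0 < Rq n p := hS0.trans_le hSR'
  have hKR : KK n p = (Rq n p)⁻¹ := by rw [hRK, inv_inv]
  have hLS : L ≤ S := ((hLM p hp1.le (by linarith)).2 S hS).1
  have hx1 : 0 ≤ A0 * K3 * (2 * B1) := by positivity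
  have hx2 : 0 ≤ C3 * A0 / L ^ 2 := by positivity
  refine ⟨?_, ?_, ?_⟩
  · rw [hKR]
    exact inv_anti₀ hS0 hSR'
  · obtain ⟨U, g, hU, hU0, hUc⟩ := cop_exist hEXP hSGN hCLA hCLC hn hp1.le
      (by linarith) hS
    obtain ⟨h1, -⟩ := core p S hp1 hp2 hS U g hU (Eventually.of_forall hU0) hUc
    have h2 : S⁻¹ - (Rq n p)⁻¹ ≤ C3 * A0 / L ^ 2 * (p - 2) ^ 2 := by
      have h3 : S⁻¹ - (Rq n p)⁻¹ = (Rq n p - S) / (S * Rq n p) := by
        have := hS0.ne'
        have := hR0.ne'
        field_simp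
      rw [h3, div_le_iff₀ (mul_pos hS0 hR0)]
      have h4 : L ^ 2 ≤ S * Rq n p := by
        rw [pow_two]
        exact mul_le_mul hLS (hLS.trans hSR') hLp.le hS0.le
      have h5 : 0 ≤ C3 * A0 * (p - 2) ^ 2 := by positivity
      calc Rq n p - S ≤ C3 * A0 * (p - 2) ^ 2 := h1
        _ = C3 * A0 / L ^ 2 * (p - 2) ^ 2 * L ^ 2 := by field_simp
        _ ≤ _ := mul_le_mul_of_nonneg_left h4 (by positivity)
    rw [hKR]
    have h6 : 0 ≤ A0 * K3 * (2 * B1) * (p - 2) ^ 2 := by positivity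
    have h7 : (C3 * A0 / L ^ 2 + A0 * K3 * (2 * B1)) * (p - 2) ^ 2 =
        C3 * A0 / L ^ 2 * (p - 2) ^ 2 + A0 * K3 * (2 * B1) * (p - 2) ^ 2 := by ring
    rw [h7]
    linarith
  · intro U g hU hU0 hUc
    obtain ⟨-, h1⟩ := core p S hp1 hp2 hS U g hU hU0 hUc
    refine h1.trans ?_
    have h7 : 0 ≤ C3 * A0 / L ^ 2 * (p - 2) := by positivity
    rw [add_mul]
    exact le_add_of_nonneg_left h7

end Pool.Agent.H27.HP
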