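import Pool.Agent.H27.HP.EXT

/-!
Row RAP of MP_8352e3_an: the rate of convergence of the extremals, `p > 2`.
-/

set_option autoImplicit false

namespace Pool.Agent.H27.HP
open MeasureTheory Set Filter Topology Pool.Agent.H80.HS Pool.Agent.H93.HQ Pool.Agent.H27.HB
open scoped ContDiff ENNReal

lemma rap_ee {x : ℝ} (hx : 0 < x) : x ^ (-x) ≤ 2 := by
  rw [Real.rpow_def_of_pos hx]
  have h1 : Real.log x * -x ≤ 1 / 2 := by
    have h2 := Real.log_le_sub_one_of_pos (inv_pos.2 (mul_pos two_pos hx))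
    rw [Real.log_inv, Real.log_mul two_ne_zero hx.ne'] at h2
    have h3 : Real.log 2 ≤ 1 := by
      have := Real.log_two_lt_d9
      linarith
    have h4 : x * (2 * x)⁻¹ = 1 / 2 := by field_simp
    nlinarith
  calc Real.exp (Real.log x * -x) ≤ Real.exp (1 / 2) := Real.exp_le_exp.2 h1
    _ ≤ 2 := by
      have h2 := Real.exp_one_lt_d9
      have h3 : Real.exp (1 / 2) ^ 2 = Real.exp 1 := by
        rw [← Real.exp_nat_mul]
        norm_num
      nlinarith [Real.exp_pos (1 / 2)]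

lemma rap_tt {e : ℕ → ℝ} (he : ∀ k, 0 < e k) (h : Tendsto e atTop (𝓝 0)) :
    Tendsto (fun k => (e k) ^ (-(e k))) atTop (𝓝 1) := by
  have h1 : Tendsto (fun x : ℝ => Real.log x * x) (𝓝[>] 0) (𝓝 0) := by
    have := tendsto_log_mul_rpow_nhdsGT_zero (r := 1) one_pos
    simpa using this
  have h2 : Tendsto e atTop (𝓝[>] 0) :=
    tendsto_nhdsWithin_iff.2 ⟨h, Eventually.of_forall fun k => he k⟩
  have h3 := (h1.comp h2).neg
  rw [neg_zero] at h3
  have h4 := (Real.continuous_exp.tendsto 0).comp h3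
  rw [Real.exp_zero] at h4
  refine h4.congr fun k => ?_
  simp only [Function.comp_apply]
  rw [Real.rpow_def_of_pos (he k)]
  ring_nf

theorem pf_RAP (hCTP : T_CTP) (hGLI : T_GLI) (hGLJ : T_GLJ) (hLOP : T_LOP) (hUTL : T_UTL)
    (hUTP : T_UTP) (hUCL : T_UCL) (hU0X : T_U0X) (hREL : T_REL) (hLSC : T_LSC) (hSOB : T_SOB)
    (hGAP : T_GAP) (hOPT : T_OPT) (hCLT : T_CLT) (hZID : T_ZID) (hBQE : T_BQE) (hCLA : T_CLA)
    (hEXI : T_EXI) (hSGN : T_SGN) (hCLC : T_CLC) (hCL2 : T_CL2) : T_RAP := by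
  intro n hn
  have hn' : (1 : ℝ) ≤ n := by exact_mod_cast hn
  obtain ⟨δ₀, hδ₀⟩ : ∃ δ₀ : ℝ, δ₀ = 1 / 8 := ⟨_, rfl⟩
  have hδ0 : 0 < δ₀ := by rw [hδ₀]; norm_num
  have hδh : δ₀ ≤ 1 / 8 := hδ₀.le
  by_contra hcon
  have H : ∀ k : ℕ, ∃ (p S : ℝ) (v : H n → ℝ) (g : H n → G n),
      2 < p ∧ p < 2 + δ₀ / ((k : ℝ) + 1) ∧ Opt n p S ∧
      Ext p S (fun z => ms (ps n p) (u0 n) ^ (-(1 / ps n p)) * v z)
        (fun z => ms (ps n p) (u0 n) ^ (-(1 / ps n p)) • g z) ∧ (∀ᵐ z, 0 ≤ v z) ∧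
      Cen (fun z => |v z| ^ ps n p) ∧ ((k : ℝ) + 1) * (p - 2) < Real.sqrt (N2 p g) := by
    intro k
    by_contra hk
    apply hcon
    have hk0 : (0 : ℝ) ≤ k := k.cast_nonneg
    refine ⟨(k : ℝ) + 1, δ₀ / ((k : ℝ) + 1), by positivity, by positivity,
      (div_le_self hδ0.le (by linarith)).trans hδh, ?_⟩
    intro p S h1 h2 h3 v g h4 h5 h6
    by_contra h7
    rw [not_le] at h7
    exact hk ⟨p, S, v, g, h1, h2, h3, h4, h5, h6, h7⟩
  choose p S v g hp1 hp2 hS hu hv0 hvc hN using H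
  have hp8 : ∀ k, p k < 2 + 1 / 8 := by
    intro k
    have : δ₀ / ((k : ℝ) + 1) ≤ δ₀ := div_le_self hδ0.le (by linarith [k.cast_nonneg (α := ℝ)])
    linarith [hp2 k]
  have hx := fun k => rap_exp hn (hp1 k) (hp8 k)
  have hpt : Tendsto p atTop (𝓝 2) := by
    have h1 : Tendsto (fun k : ℕ => 2 + δ₀ / ((k : ℝ) + 1)) atTop (𝓝 2) := by
      have h2 : Tendsto (fun k : ℕ => δ₀ / ((k : ℝ) + 1)) atTop (𝓝 0) :=
        (tendsto_const_nhds (x := δ₀)).div_atTop
          (tendsto_natCast_atTop_atTop.atTop_add tendsto_const_nhds)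
      simpa using (tendsto_const_nhds (x := (2 : ℝ))).add h2
    exact tendsto_of_tendsto_of_tendsto_of_le_of_le tendsto_const_nhds h1
      (fun k => (hp1 k).le) (fun k => (hp2 k).le)
  have hpQ : ∀ k, p k < 2 * n + 2 := fun k => by linarith [hp8 k]
  have hp11 : ∀ k, 1 < p k := fun k => by linarith [hp1 k]
  obtain ⟨T, hT⟩ : ∃ T, Opt n 2 T := by
    obtain ⟨L, M, -, h⟩ := hOPT n hn 2 2 (by norm_num) le_rfl (by linarith)
    exact (h 2 le_rfl le_rfl).1
  have hT0 : 0 < T := hT.1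
  have hex := fun k => fin_exp hn (hp11 k) (hpQ k)
  have hq0 : ∀ k, 0 < ps n (p k) := fun k => by linarith [(hex k).1]
  obtain ⟨hU1, A1', hA1', hU2'⟩ := hUTL n hn
  obtain ⟨A1, hA1, hU2⟩ := hUTP n hn
  set M : ℕ → ℝ := fun k => ms (ps n (p k)) (u0 n) with hM
  have hMb : ∀ k, A1⁻¹ ≤ M k ∧ M k ≤ A1 ∧ en (p k) (hg (u0 n)) ≤ A1 ∧
      ∫ z, |u0 n z ^ ps n (p k) - u0 n z ^ ps n 2| ≤ A1 * (p k - 2) := fun k =>
    hU2 (p k) (hp1 k).le (by linarith [hp8 k])
  have hM0 : ∀ k, 0 < M k := fun k => (inv_pos.2 hA1).trans_le (hMb k).1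
  set c : ℕ → ℝ := fun k => M k ^ (1 / ps n (p k)) with hc
  have hc0 : ∀ k, 0 < c k := fun k => Real.rpow_pos_of_pos (hM0 k) _
  have hcinv : ∀ k, c k * M k ^ (-(1 / ps n (p k))) = 1 := by
    intro k
    rw [hc, ← Real.rpow_add (hM0 k)]
    simp
  have hvcl : ∀ k, Cl (p k) (v k) (g k) := by
    intro k
    have h1 := fin_cl_smul hCLA hn (hp11 k) (hpQ k) (hu k).1 (c k)
    have h2 : (fun z => c k * (M k ^ (-(1 / ps n (p k))) * v k z)) = v k := by
      ext z
      rw [← mul_assoc, hcinv, one_mul]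
    have h3 : (fun z => c k • (M k ^ (-(1 / ps n (p k))) • g k z)) = g k := by
      ext1 z
      rw [smul_smul, hcinv, one_smul]
    rw [h2, h3] at h1
    exact h1
  have hMpos : ∀ k, 0 < M k ^ (-(1 / ps n (p k))) := fun k => Real.rpow_pos_of_pos (hM0 k) _
  have hvms : ∀ k, ms (ps n (p k)) (v k) = M k := by
    intro k
    have h1 := (hu k).2.1
    rw [fin_ms_mul, abs_of_pos (hMpos k), ← Real.rpow_mul (hM0 k).le] at h1
    have h2 : -(1 / ps n (p k)) * ps n (p k) = -1 := by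
      have := (hq0 k).ne'
      field_simp
    rw [h2, Real.rpow_neg_one] at h1
    have h3 := (hM0 k).ne'
    field_simp at h1
    exact h1
  have hcl0 : ∀ k, Cl (p k) (u0 n) (hg (u0 n)) := fun k =>
    (hUCL n hn (p k) (by linarith [hp1 k]) (by linarith [hp8 k])).1
  have heng : ∀ k, en (p k) (g k) ≤ en (p k) (hg (u0 n)) := by
    intro k
    have h1 := (hu k).2.2
    rw [fin_en_smul, abs_of_pos (hMpos k), ← Real.rpow_mul (hM0 k).le] at h1
    have h2 : -(1 / ps n (p k)) * p k = - th n (p k) := by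
      have h3 := (hex k).2.2
      have h4 := (hq0 k).ne'
      field_simp
      linarith
    rw [h2, Real.rpow_neg (hM0 k).le] at h1
    have h3 := hSOB n hn (p k) (S k) (hp11 k) (hpQ k) (hS k) (u0 n) _ (hcl0 k)
    have h4 : 0 < M k ^ th n (p k) := Real.rpow_pos_of_pos (hM0 k) _
    have h5 : en (p k) (g k) = S k * M k ^ th n (p k) := by
      rw [← h1]; field_simp
    rw [h5]
    exact h3
  obtain ⟨A2, hA2, hL⟩ := hLOP n hn A1
  have hLk := fun k => hL (p k) (S k) (hp1 k) (by linarith [hp8 k]) (hS k) (v k) (g k) (hvcl k)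
    (hv0 k) (hvms k) ((heng k).trans (hMb k).2.2.1)
  set m : ℕ → ℝ := fun k => Real.sqrt (N2 (p k) (g k)) with hm
  have hm0 : ∀ k, 0 < m k := fun k => by
    have : 0 ≤ ((k : ℝ) + 1) * (p k - 2) := by
      have := hp1 k
      have := k.cast_nonneg (α := ℝ)
      exact mul_nonneg (by linarith) (by linarith)
    exact lt_of_le_of_lt this (hN k)
  have hmsq : ∀ k, m k ^ 2 = N2 (p k) (g k) := fun k =>
    Real.sq_sqrt (by
      by_contra h
      rw [not_le] at h
      have := Real.sqrt_eq_zero_of_nonpos h.le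
      have h2 := hm0 k
      simp only [hm] at h2
      linarith)
  set W : ℕ → H n → ℝ := fun k z => (m k)⁻¹ * v k z + (-(m k)⁻¹) * u0 n z with hWdef
  set D : ℕ → H n → G n := fun k z => (m k)⁻¹ • g k z + (-(m k)⁻¹) • hg (u0 n) z with hDdef
  have hW : ∀ k, Cl (p k) (W k) (D k) := fun k =>
    hCLA n hn (p k) (hp11 k) (hpQ k) _ _ _ _ _ _ (hvcl k) (hcl0 k)
  -- the small parameter
  obtain ⟨e, he⟩ : ∃ e : ℕ → ℝ, ∀ k, e k = p k - 2 := ⟨_, fun _ => rfl⟩
  have he0 : ∀ k, 0 < e k := fun k => by rw [he]; linarith [hp1 k]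
  have he1 : ∀ k, e k < 1 := fun k => by rw [he]; linarith [hp8 k]
  have hem : ∀ k, e k < m k := fun k => by
    have h1 := hN k
    have h2 : e k ≤ ((k : ℝ) + 1) * (p k - 2) := by
      rw [← he]
      exact le_mul_of_one_le_left (he0 k).le (by linarith [k.cast_nonneg (α := ℝ)])
    exact h2.trans_lt h1
  have hEb : ∀ k, (e k) ^ (-(e k)) ≤ 2 := fun k => rap_ee (he0 k)
  have hE0 : ∀ k, 0 < (e k) ^ (-(e k)) := fun k => Real.rpow_pos_of_pos (he0 k) _
  have het : Tendsto e atTop (𝓝 0) := by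
    have h1 := hpt.sub_const 2
    rw [sub_self] at h1
    exact h1.congr fun k => (he k).symm
  have hEt : Tendsto (fun k => (e k) ^ (-(e k))) atTop (𝓝 1) := rap_tt he0 het
  have hDe : ∀ k, en (p k) (D k) ≤ (e k) ^ (-(e k)) := by
    intro k
    have h1 : D k = fun z => (m k)⁻¹ • (g k z - hg (u0 n) z) := by
      ext1 z
      simp only [hDdef]
      rw [smul_sub, neg_smul, sub_eq_add_neg]
    have hp0 : 0 < p k := by linarith [hp11 k]
    rw [h1, fin_en_smul, abs_of_pos (inv_pos.2 (hm0 k)), Real.inv_rpow (hm0 k).le]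
    have h2 := (hLk k).2.1
    have h3 : (m k)⁻¹ ^ (e k) ≤ (e k)⁻¹ ^ (e k) :=
      Real.rpow_le_rpow (inv_pos.2 (hm0 k)).le (inv_anti₀ (he0 k) (hem k).le) (he0 k).le
    rw [Real.inv_rpow (he0 k).le, ← Real.rpow_neg (he0 k).le] at h3
    refine le_trans ?_ h3
    have h4 : 0 < m k ^ p k := Real.rpow_pos_of_pos (hm0 k) _
    rw [inv_mul_le_iff₀ h4]
    refine h2.trans ?_
    rw [← hmsq k, Real.inv_rpow (hm0 k).le, ← Real.rpow_neg (hm0 k).le,
      ← Real.rpow_add (hm0 k), he]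
    have h5 : p k + -(p k - 2) = 2 := by ring
    rw [h5, Real.rpow_ofNat]
  have hww : ∀ k z, (v k z - u0 n z) = m k * W k z := by
    intro k z
    simp only [hWdef]
    have := (hm0 k).ne'
    field_simp
    ring
  have hkey : ∀ k, 6 ^ (2 - p k) -
      p k * (4 * (n : ℝ) ^ 2) * ((ps n (p k) - 1) / 2) *
        ∫ z, bb (ps n (p k)) (u0 n z) (v k z) * W k z ^ 2 ≤ 2 * A2 * (1 / ((k : ℝ) + 1)) := by
    intro k
    have h1 : en (p k) (hg (u0 n)) + 6 ^ (2 - p k) * N2 (p k) (g k)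
        - p k * (4 * (n : ℝ) ^ 2) * ((ps n (p k) - 1) / 2) *
          (∫ z, bb (ps n (p k)) (u0 n z) (v k z) * (v k z - u0 n z) ^ 2)
        - A2 * (p k - 2) * N2 (p k) (g k) ^ (1 / p k) ≤ en (p k) (g k) := (hLk k).2.2.2
    have h2 := heng k
    have h3 : ∫ z, bb (ps n (p k)) (u0 n z) (v k z) * (v k z - u0 n z) ^ 2 =
        m k ^ 2 * ∫ z, bb (ps n (p k)) (u0 n z) (v k z) * W k z ^ 2 := by
      rw [← integral_const_mul]
      refine integral_congr_ae (Eventually.of_forall fun z => ?_)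
      simp only
      rw [hww]
      ring
    rw [h3, ← hmsq k] at h1
    have hp0 : 0 < p k := by linarith [hp11 k]
    have h4 : (m k ^ 2) ^ (1 / p k) ≤ 2 * m k := by
      have h5 : (m k ^ 2) ^ (1 / p k) = m k * m k ^ (-(e k / p k)) := by
        rw [← Real.rpow_natCast, ← Real.rpow_mul (hm0 k).le]
        nth_rewrite 2 [← Real.rpow_one (m k)]
        rw [← Real.rpow_add (hm0 k)]
        congr 1
        rw [he]
        push_cast
        field_simp
        ring
      have h6 : m k ^ (-(e k / p k)) ≤ 2 := by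
        have h7 : 0 < e k / p k := div_pos (he0 k) hp0
        have h8 : m k ^ (-(e k / p k)) ≤ e k ^ (-(e k / p k)) :=
          Real.rpow_le_rpow_of_nonpos (he0 k) (hem k).le (by linarith)
        have h9 : e k ^ (-(e k / p k)) ≤ e k ^ (-(e k)) := by
          refine Real.rpow_le_rpow_of_exponent_ge (he0 k) (he1 k).le ?_
          have : e k / p k ≤ e k := div_le_self (he0 k).le (hp11 k).le
          linarith
        exact (h8.trans h9).trans (hEb k)
      rw [h5]
      nlinarith [hm0 k]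
    have h5 := hN k
    have hk1 : (0 : ℝ) < (k : ℝ) + 1 := by positivity
    have h6 : (p k - 2) ≤ 1 / ((k : ℝ) + 1) * m k := by
      rw [one_div, ← div_eq_inv_mul, le_div_iff₀ hk1]
      have : ((k : ℝ) + 1) * (p k - 2) ≤ m k := h5.le
      linarith
    have h7 : A2 * (p k - 2) * (m k ^ 2) ^ (1 / p k) ≤
        2 * A2 * (1 / ((k : ℝ) + 1)) * m k ^ 2 := by
      have hp2' : 0 ≤ p k - 2 := by linarith [hp1 k]
      calc A2 * (p k - 2) * (m k ^ 2) ^ (1 / p k) ≤ A2 * (p k - 2) * (2 * m k) :=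
            mul_le_mul_of_nonneg_left h4 (mul_nonneg hA2.le hp2')
        _ ≤ A2 * (1 / ((k : ℝ) + 1) * m k) * (2 * m k) :=
            mul_le_mul_of_nonneg_right (mul_le_mul_of_nonneg_left h6 hA2.le)
              (by linarith [hm0 k])
        _ = _ := by ring
    have h8 : (6 ^ (2 - p k) -
      p k * (4 * (n : ℝ) ^ 2) * ((ps n (p k) - 1) / 2) *
        ∫ z, bb (ps n (p k)) (u0 n z) (v k z) * W k z ^ 2) * m k ^ 2 ≤
        (2 * A2 * (1 / ((k : ℝ) + 1))) * m k ^ 2 := by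
      linarith
    exact le_of_mul_le_mul_right h8 (by have := hm0 k; positivity)
  -- the centred extremals
  have hucen : ∀ k, Cen (fun z => |M k ^ (-(1 / ps n (p k))) * v k z| ^ ps n (p k)) := by
    intro k i b
    have h1 := hvc k i b
    have h2 : ∀ z, |M k ^ (-(1 / ps n (p k))) * v k z| ^ ps n (p k) * rz i b z =
        (|M k ^ (-(1 / ps n (p k)))| ^ ps n (p k)) * (|v k z| ^ ps n (p k) * rz i b z) := by
      intro z
      rw [abs_mul, Real.mul_rpow (abs_nonneg _) (abs_nonneg _)]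
      ring
    simp only [h2]
    rw [integral_const_mul, h1, mul_zero]
  obtain ⟨σ, hσ, hcσ, htσ, -⟩ := hCTP n hn p S T
    (fun k z => M k ^ (-(1 / ps n (p k))) * v k z) (fun k z => M k ^ (-(1 / ps n (p k))) • g k z)
    (fun k => ⟨(hp1 k).le, by linarith [hp8 k]⟩) hpt hS hT hu
    (fun k => by
      filter_upwards [hv0 k] with z hz
      exact mul_nonneg (hMpos k).le hz) hucen
  obtain ⟨K, hmsW, τ, Z, hτ, hZm, hWZ, hDD⟩ := rap_extract hREL hLSC hSOB hOPT hCLT hn
    (fun k => p (σ k)) (fun k => S (σ k)) (fun k => (e (σ k)) ^ (-(e (σ k)))) 2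
    (by norm_num) (fun k => W (σ k)) (fun k => D (σ k)) (fun k => hp1 _) (fun k => hp8 _)
    (hpt.comp hσ.tendsto_atTop) (fun k => hS _) (fun k => hW _) (fun k => hDe _)
    (fun k => hE0 _) (fun k => hEb _)
  obtain ⟨D', hD', hD'e⟩ := hDD (hEt.comp hσ.tendsto_atTop)
  set ρ : ℕ → ℕ := fun k => σ (τ k) with hρdef
  have hρ : StrictMono ρ := hσ.comp hτ
  have hpρ : Tendsto (fun k => p (ρ k)) atTop (𝓝 2) := hpt.comp hρ.tendsto_atTop
  have hQ2 : ps n 2 = 2 + 2 / n := by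
    unfold ps
    have : (n : ℝ) ≠ 0 := by positivity
    rw [eq_comm, eq_div_iff (by linarith)]
    have h3 : (2 : ℝ) / n * n = 2 := div_mul_cancel₀ _ this
    nlinarith
  have hQ2' : 2 < ps n 2 := by
    rw [hQ2]
    have : (0 : ℝ) < 2 / n := by positivity
    linarith
  have hqt : Tendsto (fun k => ps n (p (ρ k))) atTop (𝓝 (ps n 2)) := by
    unfold ps
    refine Tendsto.div (hpρ.const_mul _) (tendsto_const_nhds.sub hpρ) ?_
    linarith
  obtain ⟨hMt, hTu0⟩ := hU1 (fun k => ps n (p (ρ k))) hqt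
  set Mi : ℝ := ms (ps n 2) (u0 n) with hMinf
  have hMinf0 : 0 < Mi := (inv_pos.2 hA1).trans_le (hU2 2 le_rfl (by norm_num)).1
  have hct : Tendsto (fun k => c (ρ k)) atTop (𝓝 (Mi ^ (1 / ps n 2))) := by
    have h1 : Tendsto (fun k => 1 / ps n (p (ρ k))) atTop (𝓝 (1 / ps n 2)) :=
      tendsto_const_nhds.div hqt (by linarith)
    exact hMt.rpow h1 (Or.inl hMinf0.ne')
  have hvlim : ∀ᵐ z, Tendsto (fun k => v (ρ k) z) atTop (𝓝 (u0 n z)) := by
    filter_upwards [hcσ] with z hz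
    have h1 := hct.mul (hz.comp hτ.tendsto_atTop)
    have h2 : Mi ^ (1 / ps n 2) * ub n z = u0 n z := by
      change Mi ^ (1 / ps n 2) * (Mi ^ (-(1 / ps n 2)) * u0 n z) = u0 n z
      rw [← mul_assoc, ← Real.rpow_add hMinf0]
      simp
    rw [h2] at h1
    refine h1.congr fun k => ?_
    simp only [Function.comp_apply]
    change c (ρ k) * (M (ρ k) ^ (-(1 / ps n (p (ρ k)))) * v (ρ k) z) = v (ρ k) z
    rw [← mul_assoc, hcinv, one_mul]
  have hTv : Tail (fun k => ps n (p (ρ k))) (fun k => v (ρ k)) := by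
    have h1 := rap_tail (q := fun k => ps n (p (ρ k))) (c := fun k => c (ρ k))
      (C := max 1 A1) (unq_tail htσ hτ) (fun k => ⟨hc0 _, ?_⟩)
      (fun k => ⟨hq0 _, (hx _).2.1⟩) (le_max_left _ _)
    · have h2 : (fun (k : ℕ) (z : H n) => c (ρ k) *
          (M (ρ k) ^ (-(1 / ps n (p (ρ k)))) * v (ρ k) z)) = fun k => v (ρ k) := by
        ext k z
        rw [← mul_assoc, hcinv, one_mul]
      rw [← h2]
      exact h1
    · have h3 : (1 : ℝ) ≤ max 1 A1 := le_max_left _ _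
      calc c (ρ k) ≤ (max 1 A1) ^ (1 / ps n (p (ρ k))) :=
            Real.rpow_le_rpow (hM0 _).le ((hMb _).2.1.trans (le_max_right _ _))
              (by have := hq0 (ρ k); positivity)
        _ ≤ (max 1 A1) ^ (1 : ℝ) := Real.rpow_le_rpow_of_exponent_le h3 (by
            rw [div_le_one (hq0 _)]; exact (hex _).1.le)
        _ = _ := Real.rpow_one _
  have hu0m : Measurable (u0 n : H n → ℝ) := u0x_u0_smooth.continuous.measurable
  have hWint : ∀ k, Integrable (fun z => |W (ρ k) z| ^ ps n (p (ρ k))) := by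
    intro k
    have := (hW (ρ k)).1.integrable_norm_rpow (by simpa using hq0 (ρ k)) ENNReal.ofReal_ne_top
    simpa [ENNReal.toReal_ofReal (hq0 (ρ k)).le] using this
  have hl1 := hGLJ n (fun k => ps n (p (ρ k))) (ps n 2) K
    (fun _ => u0 n) (fun k => v (ρ k)) (fun k => W (ρ k)) (u0 n) Z hQ2'
    (fun k => (hx _).1) hqt (fun z => u0x_u0_pos z) hu0m hZm.aestronglyMeasurable
    (fun k => hu0m.aestronglyMeasurable) (fun k => (hvcl _).1.aestronglyMeasurable)
    (fun k => (hW _).1.aestronglyMeasurable)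
    (fun k => Eventually.of_forall fun z => (u0x_u0_pos z).le) (fun k => hv0 _)
    (Eventually.of_forall fun z => tendsto_const_nhds) hvlim hWZ hTu0 hTv
    (fun k => ⟨hWint k, hmsW _⟩)
  obtain ⟨-, hl2⟩ := hGLI n (fun k => ps n (p (ρ k))) (ps n 2) K
    (fun k => v (ρ k)) (fun _ => u0 n) (fun k => W (ρ k)) (u0 n) Z hQ2'
    (fun k => (hx _).1) hqt (fun z => u0x_u0_pos z) hu0m hZm.aestronglyMeasurable
    (fun k => (hvcl _).1.aestronglyMeasurable) (fun k => hu0m.aestronglyMeasurable)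
    (fun k => (hW _).1.aestronglyMeasurable) (fun k => hv0 _)
    (fun k => Eventually.of_forall fun z => (u0x_u0_pos z).le) hvlim
    (Eventually.of_forall fun z => tendsto_const_nhds) hWZ hTv hTu0
    (fun k => ⟨hWint k, hmsW _⟩)
  -- the main inequality in the limit
  have hmain : 1 ≤ 4 * (n : ℝ) ^ 2 * (ps n 2 - 1) * ∫ z, u0 n z ^ (ps n 2 - 2) * Z z ^ 2 := by
    have h1 : Tendsto (fun k => 6 ^ (2 - p (ρ k)) -
        p (ρ k) * (4 * (n : ℝ) ^ 2) * ((ps n (p (ρ k)) - 1) / 2) *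
        ∫ z, bb (ps n (p (ρ k))) (u0 n z) (v (ρ k) z) * W (ρ k) z ^ 2) atTop
        (𝓝 (6 ^ ((2 : ℝ) - 2) -
          2 * (4 * (n : ℝ) ^ 2) * ((ps n 2 - 1) / 2) *
            ∫ z, u0 n z ^ (ps n 2 - 2) * Z z ^ 2)) := by
      refine Tendsto.sub ?_ ?_
      · exact (tendsto_const_nhds (x := (6 : ℝ))).rpow (tendsto_const_nhds.sub hpρ)
          (Or.inl (by norm_num))
      · exact ((hpρ.mul_const _).mul ((hqt.sub_const 1).div_const 2)).mul hl1
    have h2 : Tendsto (fun k : ℕ => 2 * A2 * (1 / (((ρ k : ℕ) : ℝ) + 1))) atTop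
        (𝓝 (2 * A2 * 0)) :=
      ((tendsto_one_div_add_atTop_nhds_zero_nat (𝕜 := ℝ)).comp hρ.tendsto_atTop).const_mul _
    have h3 := le_of_tendsto_of_tendsto' h1 h2 (fun k => hkey _)
    have h4 : (6 : ℝ) ^ ((2 : ℝ) - 2) = 1 := by norm_num
    rw [h4, mul_zero] at h3
    linarith
  -- integrability
  have hvint : ∀ k, Integrable (fun z => |v k z| ^ ps n (p k)) := by
    intro k
    have := (hvcl k).1.integrable_norm_rpow (by simpa using hq0 k) ENNReal.ofReal_ne_top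
    simpa [ENNReal.toReal_ofReal (hq0 k).le] using this
  have hu0int : ∀ k, Integrable (fun z : H n => u0 n z ^ ps n (p k)) := by
    intro k
    have := (hcl0 k).1.integrable_norm_rpow (by simpa using hq0 k) ENNReal.ofReal_ne_top
    simp only [Real.norm_eq_abs, ENNReal.toReal_ofReal (hq0 k).le] at this
    refine this.congr (Eventually.of_forall fun z => ?_)
    simp only
    rw [abs_of_pos (u0x_u0_pos z)]
  have hQint : Integrable (fun z : H n => u0 n z ^ ps n 2) := by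
    have h1 := (hUCL n hn 2 (by norm_num) (by norm_num)).1.1
    have h2 : 0 < ps n 2 := by linarith
    have := h1.integrable_norm_rpow (by simpa using h2) ENNReal.ofReal_ne_top
    simp only [Real.norm_eq_abs, ENNReal.toReal_ofReal h2.le] at this
    refine this.congr (Eventually.of_forall fun z => ?_)
    simp only
    rw [abs_of_pos (u0x_u0_pos z)]
  have hms0 : ∀ k, ∫ z : H n, u0 n z ^ ps n (p k) = M k := by
    intro k
    refine integral_congr_ae (Eventually.of_forall fun z => ?_)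
    simp only
    rw [abs_of_pos (u0x_u0_pos z)]
  -- the divided difference
  have hcq : ∀ k, ∀ᵐ z, cq (ps n (p k)) (v k z) (u0 n z) * W k z =
      (ps n (p k) * m k)⁻¹ * (|v k z| ^ ps n (p k) - u0 n z ^ ps n (p k)) := by
    intro k
    filter_upwards [hv0 k] with z hz
    have h1 := (hBQE.1 (ps n (p k)) (v k z) (u0 n z) (hx k).1 hz (u0x_u0_pos z).le).2.1
    rw [abs_of_nonneg hz, h1, hww]
    have h2 := (hm0 k).ne'
    have h3 := (hq0 k).ne'
    field_simp
  -- the centring of the Jerison-Lee function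
  obtain ⟨U, gU, hU, hU0, hUc⟩ := fin_exist hEXI hSGN hCLA hCLC hn (by norm_num) le_rfl hT
  have hUub : U =ᵐ[volume] ub n := hCL2 n hn T hT U gU hU (Eventually.of_forall hU0) hUc
  have hrz1 : ∀ (i : Option (Fin n)) (b : Bool) (z : H n), |rz i b z| ≤ 1 := (hZID n hn).2.1
  have hcpos : 0 < Mi ^ (-(1 / ps n 2)) := Real.rpow_pos_of_pos hMinf0 _
  have hubdef : ∀ z, ub n z = Mi ^ (-(1 / ps n 2)) * u0 n z := fun z => rfl
  have hQc : ∀ (i : Option (Fin n)) (b : Bool), ∫ z : H n, u0 n z ^ ps n 2 * rz i b z = 0 := by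
    intro i b
    have h1 := hUc i b
    have h2 : ∫ z : H n, |U z| ^ ps n 2 * rz i b z =
        ∫ z : H n, (Mi ^ (-(1 / ps n 2))) ^ ps n 2 * (u0 n z ^ ps n 2 * rz i b z) := by
      refine integral_congr_ae ?_
      filter_upwards [hUub] with z hz
      rw [hz, hubdef, abs_of_pos (mul_pos hcpos (u0x_u0_pos z)),
        Real.mul_rpow hcpos.le (u0x_u0_pos z).le]
      ring
    rw [h2, integral_const_mul] at h1
    have h3 : 0 < (Mi ^ (-(1 / ps n 2))) ^ ps n 2 := Real.rpow_pos_of_pos hcpos _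
    exact (mul_eq_zero.1 h1).resolve_left h3.ne'
  have hbdd : ∀ (f : H n → ℝ) (i : Option (Fin n)) (b : Bool), Integrable f →
      Integrable (fun z => f z * rz i b z) := by
    intro f i b hf
    refine hf.mul_bdd (c := 1) (unq_rz i b).aestronglyMeasurable
      (Eventually.of_forall fun z => ?_)
    rw [Real.norm_eq_abs]
    exact hrz1 i b z
  have hu0c : ∀ (k : ℕ) (i : Option (Fin n)) (b : Bool),
      |∫ z : H n, u0 n z ^ ps n (p k) * rz i b z| ≤ A1 * (p k - 2) := by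
    intro k i b
    have h1 : ∫ z : H n, u0 n z ^ ps n (p k) * rz i b z =
        ∫ z : H n, (u0 n z ^ ps n (p k) - u0 n z ^ ps n 2) * rz i b z := by
      have h2 := integral_sub (hbdd _ i b (hu0int k)) (hbdd _ i b hQint)
      rw [hQc, sub_zero] at h2
      rw [← h2]
      refine integral_congr_ae (Eventually.of_forall fun z => ?_)
      simp only
      ring
    rw [h1]
    refine le_trans ?_ (hMb k).2.2.2
    refine (abs_integral_le_integral_abs).trans ?_
    refine integral_mono (hbdd _ i b ((hu0int k).sub hQint)).abs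
      ((hu0int k).sub hQint).abs fun z => ?_
    simp only
    rw [abs_mul]
    exact mul_le_of_le_one_right (abs_nonneg _) (hrz1 i b z)
  have horth : ∫ z, u0 n z ^ (ps n 2 - 1) * Z z = 0 := by
    have h1 := hl2 (fun _ => 1) measurable_const (fun z => by simp)
    simp only [mul_one] at h1
    refine tendsto_nhds_unique h1 ?_
    have h2 : ∀ k, ∫ z, cq (ps n (p (ρ k))) (v (ρ k) z) (u0 n z) * W (ρ k) z = 0 := by
      intro k
      rw [integral_congr_ae (hcq (ρ k)), integral_const_mul,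
        integral_sub (hvint _) (hu0int _), hms0]
      have h3 : ∫ z, |v (ρ k) z| ^ ps n (p (ρ k)) = M (ρ k) := hvms (ρ k)
      rw [h3, sub_self, mul_zero]
    simp only [h2]
    exact tendsto_const_nhds
  have horth2 : ∀ (i : Option (Fin n)) (b : Bool),
      ∫ z, u0 n z ^ (ps n 2 - 1) * Z z * rz i b z = 0 := by
    intro i b
    have h1 := hl2 (rz i b) (unq_rz i b) (hrz1 i b)
    refine tendsto_nhds_unique h1 ?_
    have h2 : ∀ k, |∫ z, cq (ps n (p (ρ k))) (v (ρ k) z) (u0 n z) * W (ρ k) z * rz i b z| ≤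
        A1 * (1 / (((ρ k : ℕ) : ℝ) + 1)) := by
      intro k
      have h3 : ∫ z, cq (ps n (p (ρ k))) (v (ρ k) z) (u0 n z) * W (ρ k) z * rz i b z =
          (ps n (p (ρ k)) * m (ρ k))⁻¹ * ((∫ z, |v (ρ k) z| ^ ps n (p (ρ k)) * rz i b z) -
            ∫ z, u0 n z ^ ps n (p (ρ k)) * rz i b z) := by
        rw [← integral_sub (hbdd _ i b (hvint _)) (hbdd _ i b (hu0int _)), ← integral_const_mul]
        refine integral_congr_ae ?_
        filter_upwards [hcq (ρ k)] with z hz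
        rw [hz]
        ring
      have h4 : ∫ z, |v (ρ k) z| ^ ps n (p (ρ k)) * rz i b z = 0 := hvc (ρ k) i b
      rw [h3, h4, zero_sub, abs_mul, abs_neg]
      have h5 := hu0c (ρ k) i b
      have hm' := hm0 (ρ k)
      have hq' := (hex (ρ k)).1
      have hqm : 0 < ps n (p (ρ k)) * m (ρ k) := mul_pos (by linarith) hm'
      rw [abs_of_pos (inv_pos.2 hqm), inv_mul_le_iff₀ hqm]
      have h6 := hN (ρ k)
      have hk1 : (0 : ℝ) < ((ρ k : ℕ) : ℝ) + 1 := by positivity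
      have h7 : (p (ρ k) - 2) ≤ 1 / (((ρ k : ℕ) : ℝ) + 1) * m (ρ k) := by
        rw [one_div, ← div_eq_inv_mul, le_div_iff₀ hk1]
        have : (((ρ k : ℕ) : ℝ) + 1) * (p (ρ k) - 2) ≤ m (ρ k) := h6.le
        linarith
      have h8 : 0 ≤ 1 / (((ρ k : ℕ) : ℝ) + 1) * m (ρ k) := by positivity
      calc |∫ z, u0 n z ^ ps n (p (ρ k)) * rz i b z| ≤ A1 * (p (ρ k) - 2) := h5
        _ ≤ A1 * (1 / (((ρ k : ℕ) : ℝ) + 1) * m (ρ k)) := mul_le_mul_of_nonneg_left h7 hA1.le
        _ ≤ ps n (p (ρ k)) * (A1 * (1 / (((ρ k : ℕ) : ℝ) + 1) * m (ρ k))) :=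
          le_mul_of_one_le_left (mul_nonneg hA1.le h8) hq'.le
        _ = _ := by ring
    have h9 : Tendsto (fun k : ℕ => A1 * (1 / (((ρ k : ℕ) : ℝ) + 1))) atTop (𝓝 (A1 * 0)) :=
      ((tendsto_one_div_add_atTop_nhds_zero_nat (𝕜 := ℝ)).comp hρ.tendsto_atTop).const_mul A1
    rw [mul_zero] at h9
    exact squeeze_zero_norm (fun k => by rw [Real.norm_eq_abs]; exact h2 k) h9
  -- translation to the normalised function
  obtain ⟨-, -, hubw, -⟩ := hU0X n hn T hT
  have hu0w : ∀ z : H n, u0 n z ^ (ps n 2 - 2) = (ww z)⁻¹ := by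
    intro z
    have h1 : -(n : ℝ) / 2 * (ps n 2 - 2) = -1 := by
      rw [hQ2]
      have : (n : ℝ) ≠ 0 := by positivity
      field_simp
      ring
    unfold u0
    rw [← Real.rpow_mul (u0x_ww_pos z).le, h1, Real.rpow_neg_one]
  have hub2 : ∀ z : H n, T * ub n z ^ (ps n 2 - 2) = 4 * (n : ℝ) ^ 2 * u0 n z ^ (ps n 2 - 2) := by
    intro z
    rw [hubw, hu0w, div_eq_mul_inv]
  have hub1 : ∀ z : H n, ub n z ^ (ps n 2 - 1) =
      (Mi ^ (-(1 / ps n 2))) ^ (ps n 2 - 1) * u0 n z ^ (ps n 2 - 1) := by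
    intro z
    rw [hubdef, Real.mul_rpow hcpos.le (u0x_u0_pos z).le]
  have hZ0 := hGAP n hn T hT Z D' hD' (by
      have h1 : ∀ z, ub n z ^ (ps n 2 - 1) * Z z =
          (Mi ^ (-(1 / ps n 2))) ^ (ps n 2 - 1) * (u0 n z ^ (ps n 2 - 1) * Z z) := by
        intro z
        rw [hub1]; ring
      simp only [h1]
      rw [integral_const_mul, horth, mul_zero])
    (by
      intro i b
      have h1 : ∀ z, ub n z ^ (ps n 2 - 1) * Z z * rz i b z =
          (Mi ^ (-(1 / ps n 2))) ^ (ps n 2 - 1) * (u0 n z ^ (ps n 2 - 1) * Z z * rz i b z) := by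
        intro z
        rw [hub1]; ring
      simp only [h1]
      rw [integral_const_mul, horth2, mul_zero])
    (by
      have h1 : T * (ps n 2 - 1) * ∫ z, ub n z ^ (ps n 2 - 2) * Z z ^ 2 =
          4 * (n : ℝ) ^ 2 * (ps n 2 - 1) * ∫ z, u0 n z ^ (ps n 2 - 2) * Z z ^ 2 := by
        rw [← integral_const_mul, ← integral_const_mul]
        refine integral_congr_ae (Eventually.of_forall fun z => ?_)
        simp only
        have := hub2 z
        linear_combination (ps n 2 - 1) * Z z ^ 2 * this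
      rw [h1]
      exact hD'e.trans hmain)
  have h0 : ∫ z, u0 n z ^ (ps n 2 - 2) * Z z ^ 2 = 0 := by
    rw [integral_eq_zero_of_ae]
    filter_upwards [hZ0] with z hz
    rw [hz]
    simp
  rw [h0, mul_zero] at hmain
  linarith

end Pool.Agent.H27.HP
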