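import Pool.Agent.H27.HP.EXT

/-!
Row UNP of MP_8352e3_an: uniqueness of centred extremals up to a very small error, `p > 2`.
-/

set_option autoImplicit false

namespace Pool.Agent.H27.HP
open MeasureTheory Set Filter Topology Pool.Agent.H80.HS Pool.Agent.H93.HQ Pool.Agent.H27.HB
open scoped ContDiff ENNReal

lemma unp_int {n : ℕ} {p : ℝ} (hp : 2 ≤ p) {f g : H n → G n}
    (hf : MemLp f (ENNReal.ofReal p)) (hg' : MemLp g (ENNReal.ofReal p)) :
    Integrable (fun z => (‖f z‖ + ‖g z‖) ^ (p - 2) * ‖f z - g z‖ ^ 2) := by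
  have hp0 : 0 < p := by linarith
  have h1 : MemLp (fun z => ‖f z‖ + ‖g z‖) (ENNReal.ofReal p) := hf.norm.add hg'.norm
  have h2 := h1.integrable_norm_rpow (by simpa using hp0) ENNReal.ofReal_ne_top
  rw [ENNReal.toReal_ofReal hp0.le] at h2
  refine h2.mono' ?_ (Eventually.of_forall fun z => ?_)
  · exact (h1.1.aemeasurable.pow_const _).aestronglyMeasurable.mul
      ((hf.1.sub hg'.1).norm.aemeasurable.pow_const _).aestronglyMeasurable
  · have hs : 0 ≤ ‖f z‖ + ‖g z‖ := by positivity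
    have h3 : ‖f z - g z‖ ≤ ‖f z‖ + ‖g z‖ := norm_sub_le _ _
    rw [Real.norm_of_nonneg (by positivity), Real.norm_of_nonneg hs]
    rcases hs.eq_or_lt with h0 | h0
    · have h4 : ‖f z - g z‖ = 0 := le_antisymm (h3.trans h0.symm.le) (norm_nonneg _)
      rw [h4]
      simp only [ne_eq, OfNat.ofNat_ne_zero, not_false_eq_true, zero_pow, mul_zero]
      exact Real.rpow_nonneg hs _
    · calc (‖f z‖ + ‖g z‖) ^ (p - 2) * ‖f z - g z‖ ^ 2
          ≤ (‖f z‖ + ‖g z‖) ^ (p - 2) * (‖f z‖ + ‖g z‖) ^ 2 :=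
            mul_le_mul_of_nonneg_left (pow_le_pow_left₀ (norm_nonneg _) h3 2)
              (Real.rpow_nonneg hs _)
        _ = (‖f z‖ + ‖g z‖) ^ p := by
            rw [← Real.rpow_natCast, ← Real.rpow_add h0]
            congr 1
            push_cast
            ring

theorem pf_UNP (hRAP : T_RAP) (hUTP : T_UTP) (hUCL : T_UCL) (hMSR : T_MSR) (hLSW : T_LSW)
    (hDIP : T_DIP) (hCTP : T_CTP) (hREL : T_REL) (hLSC : T_LSC) (hSOB : T_SOB) (hGLI : T_GLI)
    (hGAP : T_GAP) (hOPT : T_OPT) (hU0X : T_U0X) (hCLT : T_CLT) (hZID : T_ZID)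
    (hCLA : T_CLA) : T_UNP := by
  intro n hn Mx hMx
  have hn' : (1 : ℝ) ≤ n := by exact_mod_cast hn
  obtain ⟨A1, δR, hA1, hδR, hδR', hR⟩ := hRAP n hn
  obtain ⟨A0, hA0, hU2⟩ := hUTP n hn
  obtain ⟨L, M', hL, hLM⟩ := hOPT n hn 2 (17 / 8) (by norm_num) (by norm_num) (by linarith)
  obtain ⟨δ₀, hδ₀⟩ : ∃ δ₀ : ℝ, δ₀ = min (1 / 8) δR := ⟨_, rfl⟩
  have hδ0 : 0 < δ₀ := by rw [hδ₀]; positivity
  have hδh : δ₀ ≤ 1 / 8 := by rw [hδ₀]; exact min_le_left _ _
  have hδr : δ₀ ≤ δR := by rw [hδ₀]; exact min_le_right _ _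
  by_contra hcon
  have H : ∀ k : ℕ, ∃ (p S : ℝ) (u v : H n → ℝ) (g h : H n → G n),
      2 < p ∧ p < 2 + δ₀ / ((k : ℝ) + 1) ∧ Opt n p S ∧ Ext p S u g ∧ Ext p S v h ∧
      (∀ᵐ z, 0 ≤ u z) ∧ (∀ᵐ z, 0 ≤ v z) ∧ Cen (fun z => |u z| ^ ps n p) ∧
      Cen (fun z => |v z| ^ ps n p) ∧
      Real.exp (-(Mx / (p - 2))) < ms (ps n p) (fun z => u z - v z) := by
    intro k
    by_contra hk
    apply hcon
    refine ⟨δ₀ / ((k : ℝ) + 1), by positivity,
      (div_le_self hδ0.le (by linarith [k.cast_nonneg (α := ℝ)])).trans hδh, ?_⟩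
    intro p S h1 h2 h3 u v g h h4 h5 h6 h7 h8 h9
    by_contra h10
    rw [not_le] at h10
    exact hk ⟨p, S, u, v, g, h, h1, h2, h3, h4, h5, h6, h7, h8, h9, h10⟩
  choose p S u v g h hp1 hp2 hS hu hv hu0 hv0 huc hvc huv using H
  have hp0δ : ∀ k, p k < 2 + δ₀ := by
    intro k
    have : δ₀ / ((k : ℝ) + 1) ≤ δ₀ := div_le_self hδ0.le (by linarith [k.cast_nonneg (α := ℝ)])
    linarith [hp2 k]
  have hp8 : ∀ k, p k < 2 + 1 / 8 := fun k => by linarith [hp0δ k]
  have hx := fun k => rap_exp hn (hp1 k) (hp8 k)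
  have hpt : Tendsto p atTop (𝓝 2) := by
    have h1 : Tendsto (fun k : ℕ => 2 + δ₀ / ((k : ℝ) + 1)) atTop (𝓝 2) := by
      have h2 : Tendsto (fun k : ℕ => δ₀ / ((k : ℝ) + 1)) atTop (𝓝 0) :=
        (tendsto_const_nhds (x := δ₀)).div_atTop
          (tendsto_natCast_atTop_atTop.atTop_add tendsto_const_nhds)
      simpa using (tendsto_const_nhds (x := (2 : ℝ))).add h2
    exact tendsto_of_tendsto_of_tendsto_of_le_of_le tendsto_const_nhds h1
      (fun k => (hp1 k).le) (fun k => (hp2 k).le)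
  have hpQ : ∀ k, p k < 2 * n + 2 := fun k => by linarith [hp8 k]
  have hp11 : ∀ k, 1 < p k := fun k => by linarith [hp1 k]
  obtain ⟨T, hT⟩ : ∃ T, Opt n 2 T := by
    obtain ⟨L, M, -, h⟩ := hOPT n hn 2 2 (by norm_num) le_rfl (by linarith)
    exact (h 2 le_rfl le_rfl).1
  have hT0 : 0 < T := hT.1
  have hSL : ∀ k, L ≤ S k ∧ S k ≤ M' := fun k =>
    (hLM (p k) (hp1 k).le (by linarith [hp8 k])).2 (S k) (hS k)
  have hex := fun k => fin_exp hn (hp11 k) (hpQ k)
  have hq0 : ∀ k, 0 < ps n (p k) := fun k => by linarith [(hex k).1]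
  -- the small parameter
  obtain ⟨e, he⟩ : ∃ e : ℕ → ℝ, ∀ k, e k = p k - 2 := ⟨_, fun _ => rfl⟩
  have he0 : ∀ k, 0 < e k := fun k => by rw [he]; linarith [hp1 k]
  have he1 : ∀ k, e k < 1 := fun k => by rw [he]; linarith [hp8 k]
  -- the differences
  have hD := fun k => hDIP n hn (p k) (S k) (hp1 k).le (hpQ k) (hS k) (u k) (v k) (g k) (h k)
    (hu k) (hv k) (hu0 k) (hv0 k) (huc k) (hvc k)
  have hNl : ∀ k, L * Real.exp (-(Mx / e k)) ≤ N3 (p k) (g k) (h k) := by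
    intro k
    refine le_trans ?_ (hD k).2.2.1
    have hE0 := Real.exp_pos (-(Mx / e k))
    have hE1 : Real.exp (-(Mx / e k)) ≤ 1 := by
      rw [Real.exp_le_one_iff]
      have := div_pos hMx (he0 k)
      linarith
    have h1 : Real.exp (-(Mx / e k)) ≤ ms (ps n (p k)) (fun z => u k z - v k z) ^ th n (p k) := by
      calc Real.exp (-(Mx / e k)) = Real.exp (-(Mx / e k)) ^ (1 : ℝ) := (Real.rpow_one _).symm
        _ ≤ Real.exp (-(Mx / e k)) ^ th n (p k) := by
            refine Real.rpow_le_rpow_of_exponent_ge hE0 hE1 ?_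
            unfold th
            rw [div_le_iff₀ (by positivity)]
            linarith [hp11 k]
        _ ≤ _ := Real.rpow_le_rpow hE0.le (by
            have := (huv k).le
            rw [← he] at this
            exact this) (by linarith [(hx k).2.2])
    exact mul_le_mul (hSL k).1 h1 hE0.le (hL.le.trans (hSL k).1)
  have hN0 : ∀ k, 0 < N3 (p k) (g k) (h k) := fun k =>
    (mul_pos hL (Real.exp_pos _)).trans_le (hNl k)
  set m : ℕ → ℝ := fun k => Real.sqrt (N3 (p k) (g k) (h k)) with hm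
  have hm0 : ∀ k, 0 < m k := fun k => Real.sqrt_pos.2 (hN0 k)
  have hmsq : ∀ k, m k ^ 2 = N3 (p k) (g k) (h k) := fun k => Real.sq_sqrt (hN0 k).le
  set W : ℕ → H n → ℝ := fun k z => (m k)⁻¹ * (u k z - v k z) with hWdef
  set D : ℕ → H n → G n := fun k z => (m k)⁻¹ • (g k z - h k z) with hDdef
  have hW : ∀ k, Cl (p k) (W k) (D k) := fun k =>
    fin_cl_smul hCLA hn (hp11 k) (hpQ k) (hD k).1 _
  obtain ⟨CC, hCC⟩ : ∃ CC : ℝ, CC = max 1 L⁻¹ * Real.exp (Mx / 2) := ⟨_, rfl⟩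
  have hexp1 : 1 ≤ Real.exp (Mx / 2) := Real.one_le_exp (by positivity)
  have hCC1 : 1 ≤ CC := by
    rw [hCC]
    exact one_le_mul_of_one_le_of_one_le (le_max_left _ _) hexp1
  have hDe : ∀ k, en (p k) (D k) ≤ CC := by
    intro k
    have hp0 : 0 < p k := by linarith [hp11 k]
    rw [hDdef]
    simp only
    rw [fin_en_smul, abs_of_pos (inv_pos.2 (hm0 k)), Real.inv_rpow (hm0 k).le]
    have h2 := (hD k).2.2.2.1
    have h4 : 0 < m k ^ p k := Real.rpow_pos_of_pos (hm0 k) _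
    have h5 : (m k ^ p k)⁻¹ * en (p k) (fun z => g k z - h k z) ≤
        N3 (p k) (g k) (h k) ^ (-(e k / 2)) := by
      rw [inv_mul_le_iff₀ h4]
      refine h2.trans ?_
      have h6 : m k ^ p k = N3 (p k) (g k) (h k) ^ (p k / 2) := by
        rw [← hmsq k, ← Real.rpow_natCast, ← Real.rpow_mul (hm0 k).le]
        congr 1
        push_cast
        ring
      rw [h6, ← Real.rpow_add (hN0 k), he]
      have h7 : p k / 2 + -((p k - 2) / 2) = 1 := by ring
      rw [h7, Real.rpow_one]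
    refine h5.trans ?_
    have h8 : N3 (p k) (g k) (h k) ^ (-(e k / 2)) ≤
        (L * Real.exp (-(Mx / e k))) ^ (-(e k / 2)) :=
      Real.rpow_le_rpow_of_nonpos (mul_pos hL (Real.exp_pos _)) (hNl k)
        (by linarith [he0 k])
    refine h8.trans ?_
    rw [Real.mul_rpow hL.le (Real.exp_pos _).le, ← Real.exp_mul, hCC]
    refine mul_le_mul ?_ (Real.exp_le_exp.2 ?_) (Real.exp_pos _).le (by positivity)
    · rw [Real.rpow_neg hL.le, ← Real.inv_rpow hL.le]
      calc L⁻¹ ^ (e k / 2) ≤ (max 1 L⁻¹) ^ (e k / 2) :=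
            Real.rpow_le_rpow (inv_pos.2 hL).le (le_max_right _ _) (by linarith [he0 k])
        _ ≤ (max 1 L⁻¹) ^ (1 : ℝ) := Real.rpow_le_rpow_of_exponent_le (le_max_left _ _)
            (by linarith [he1 k])
        _ = _ := Real.rpow_one _
    · have h9 := (he0 k).ne'
      have h10 : -(Mx / e k) * -(e k / 2) = Mx / 2 := by field_simp
      rw [h10]
  -- convergence of both families
  obtain ⟨σ₁, hσ₁, hc₁, ht₁, hs₁⟩ := hCTP n hn p S T u g
    (fun k => ⟨(hp1 k).le, by linarith [hp8 k]⟩) hpt hS hT hu hu0 huc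
  obtain ⟨σ₂, hσ₂, hc₂, ht₂, hs₂⟩ := hCTP n hn (fun k => p (σ₁ k)) (fun k => S (σ₁ k)) T
    (fun k => v (σ₁ k)) (fun k => h (σ₁ k)) (fun k => ⟨(hp1 _).le, by linarith [hp8 (σ₁ k)]⟩)
    (hpt.comp hσ₁.tendsto_atTop) (fun k => hS _) hT (fun k => hv _) (fun k => hv0 _)
    (fun k => hvc _)
  set σ : ℕ → ℕ := fun k => σ₁ (σ₂ k) with hσdef
  have hσ : StrictMono σ := hσ₁.comp hσ₂
  obtain ⟨K, hmsW, τ, Z, hτ, hZm, hWZ, -⟩ := rap_extract hREL hLSC hSOB hOPT hCLT hn
    (fun k => p (σ k)) (fun k => S (σ k)) (fun _ => CC) CC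
    hCC1 (fun k => W (σ k)) (fun k => D (σ k)) (fun k => hp1 _) (fun k => hp8 _)
    (hpt.comp hσ.tendsto_atTop) (fun k => hS _) (fun k => hW _) (fun k => hDe _)
    (fun k => by linarith) (fun k => le_rfl)
  set ρ : ℕ → ℕ := fun k => σ (τ k) with hρdef
  have hρ : StrictMono ρ := hσ.comp hτ
  have hpρ : Tendsto (fun k => p (ρ k)) atTop (𝓝 2) := hpt.comp hρ.tendsto_atTop
  have hSρ : Tendsto (fun k => S (ρ k)) atTop (𝓝 T) := hs₂.comp hτ.tendsto_atTop
  -- the weights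
  set c : ℕ → ℝ := fun k => ms (ps n (p k)) (u0 n) ^ (1 / ps n (p k)) with hc
  have hMb : ∀ k, A0⁻¹ ≤ ms (ps n (p k)) (u0 n) ∧ ms (ps n (p k)) (u0 n) ≤ A0 := fun k =>
    ⟨(hU2 (p k) (hp1 k).le (by linarith [hp8 k])).1,
      (hU2 (p k) (hp1 k).le (by linarith [hp8 k])).2.1⟩
  have hM0 : ∀ k, 0 < ms (ps n (p k)) (u0 n) := fun k => (inv_pos.2 hA0).trans_le (hMb k).1
  have hc0 : ∀ k, 0 < c k := fun k => Real.rpow_pos_of_pos (hM0 k) _
  have hcA : ∀ k, c k ≤ max 1 A0 := by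
    intro k
    have h3 : (1 : ℝ) ≤ max 1 A0 := le_max_left _ _
    calc c k ≤ (max 1 A0) ^ (1 / ps n (p k)) :=
          Real.rpow_le_rpow (hM0 _).le ((hMb _).2.trans (le_max_right _ _))
            (by have := hq0 k; positivity)
      _ ≤ (max 1 A0) ^ (1 : ℝ) := Real.rpow_le_rpow_of_exponent_le h3 (by
          rw [div_le_one (hq0 _)]; exact (hex _).1.le)
      _ = _ := Real.rpow_one _
  have hcinv : ∀ k, ms (ps n (p k)) (u0 n) ^ (-(1 / ps n (p k))) * c k = 1 := by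
    intro k
    rw [hc, ← Real.rpow_add (hM0 k)]
    simp
  have hN2 : ∀ k, Real.sqrt (N2 (p k) (fun z => c k • g k z)) ≤ A1 * (p k - 2) := by
    intro k
    refine hR (p k) (S k) (hp1 k) (by linarith [hp0δ k]) (hS k) (fun z => c k * u k z)
      (fun z => c k • g k z) ?_ ?_ ?_
    · have h1 : (fun z => ms (ps n (p k)) (u0 n) ^ (-(1 / ps n (p k))) * (c k * u k z)) =
          u k := by
        ext z
        rw [← mul_assoc, hcinv, one_mul]
      have h2 : (fun z => ms (ps n (p k)) (u0 n) ^ (-(1 / ps n (p k))) • (c k • g k z)) =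
          g k := by
        ext1 z
        rw [smul_smul, hcinv, one_smul]
      rw [h1, h2]
      exact hu k
    · filter_upwards [hu0 k] with z hz
      exact mul_nonneg (hc0 k).le hz
    · intro i b
      have h2 : ∀ z, |c k * u k z| ^ ps n (p k) * rz i b z =
          |c k| ^ ps n (p k) * (|u k z| ^ ps n (p k) * rz i b z) := by
        intro z
        rw [abs_mul, Real.mul_rpow (abs_nonneg _) (abs_nonneg _)]
        ring
      simp only [h2]
      rw [integral_const_mul, huc k i b, mul_zero]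
  have hgm : ∀ k, MemLp (fun z => c k • g k z) (ENNReal.ofReal (p k)) := fun k =>
    (hu k).1.2.1.const_smul (c k)
  have hg0m : ∀ k, MemLp (hg (u0 n)) (ENNReal.ofReal (p k)) := fun k =>
    (hUCL n hn (p k) (by linarith [hp1 k]) (by linarith [hp8 k])).1.2.1
  have hms := hMSR n hn p c (max 1 A0) g (fun k => ⟨hp1 k, by linarith [hp8 k]⟩) hpt
    (fun k => ⟨hc0 k, hcA k⟩) (fun k => (hu k).1.2.1.1)
    (fun k => unp_int (hp1 k).le (hg0m k) (hgm k)) (by
      have h1 : Tendsto (fun k => (A1 * (p k - 2)) ^ 2) atTop (𝓝 ((A1 * (2 - 2)) ^ 2)) :=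
        ((hpt.sub_const 2).const_mul A1).pow 2
      have h2 : (A1 * ((2 : ℝ) - 2)) ^ 2 = 0 := by ring
      rw [h2] at h1
      refine squeeze_zero (fun k => integral_nonneg fun z => by positivity) (fun k => ?_) h1
      have h3 : 0 ≤ N2 (p k) (fun z => c k • g k z) :=
        integral_nonneg fun z => by positivity
      calc N2 (p k) (fun z => c k • g k z) =
            Real.sqrt (N2 (p k) (fun z => c k • g k z)) ^ 2 := (Real.sq_sqrt h3).symm
        _ ≤ _ := pow_le_pow_left₀ (Real.sqrt_nonneg _) (hN2 k) 2)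
  have hDw : ∀ k, (fun z => (‖g k z‖ + ‖h k z‖) ^ (p k - 2) * ‖D k z‖ ^ 2) =
      fun z => (m k ^ 2)⁻¹ * ((‖g k z‖ + ‖h k z‖) ^ (p k - 2) * ‖g k z - h k z‖ ^ 2) := by
    intro k
    ext z
    simp only [hDdef]
    rw [norm_smul, norm_inv, Real.norm_of_nonneg (hm0 k).le]
    have := (hm0 k).ne'
    field_simp
  obtain ⟨D', hD', hD'e⟩ := hLSW n hn (fun k => p (ρ k)) (max K CC) (fun k => W (ρ k))
    (fun k => D (ρ k)) (fun k z => (‖g (ρ k) z‖ + ‖h (ρ k) z‖) ^ (p (ρ k) - 2)) Z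
    (fun k => ⟨(hp1 _).le, by linarith [hp8 (ρ k)]⟩) hpρ (fun k => hW _)
    (fun k => (hmsW _).trans (le_max_left _ _)) (fun k => (hDe _).trans (le_max_right _ _))
    (fun k => (((hu (ρ k)).1.2.1.1.norm.add (hv (ρ k)).1.2.1.1.norm).aemeasurable.pow_const
      _).aestronglyMeasurable) (fun k z => by positivity)
    (fun k => by
      rw [hDw]
      exact (unp_int (hp1 _).le (hu _).1.2.1 (hv _).1.2.1).const_mul _)
    (fun k => by
      rw [hDw, integral_const_mul, hmsq]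
      exact (inv_mul_cancel₀ (hN0 _).ne').le)
    (by
      intro R t η ht hη
      filter_upwards [hρ.tendsto_atTop.eventually (hms R t η ht hη)] with k hk
      refine (measure_mono ?_).trans hk
      rintro z ⟨h1, h2⟩
      refine ⟨h1, lt_of_le_of_lt ?_ h2⟩
      exact Real.rpow_le_rpow (norm_nonneg _) (le_add_of_nonneg_right (norm_nonneg _))
        (by linarith [hp1 (ρ k)]))
    hZm.aestronglyMeasurable hWZ
  -- the limits of the integrals
  have hQ2' : 2 < ps n 2 := by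
    unfold ps
    rw [lt_div_iff₀ (by linarith)]
    nlinarith
  have hqt : Tendsto (fun k => ps n (p (ρ k))) atTop (𝓝 (ps n 2)) := by
    unfold ps
    refine Tendsto.div (hpρ.const_mul _) (tendsto_const_nhds.sub hpρ) ?_
    linarith
  obtain ⟨hubE, hub0, -, -⟩ := hU0X n hn T hT
  obtain ⟨hl1, hl2⟩ := hGLI n (fun k => ps n (p (ρ k))) (ps n 2) K
    (fun k => u (ρ k)) (fun k => v (ρ k)) (fun k => W (ρ k)) (ub n) Z hQ2'
    (fun k => (hx _).1) hqt hub0 unq_ub hZm.aestronglyMeasurable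
    (fun k => (hu _).1.1.aestronglyMeasurable) (fun k => (hv _).1.1.aestronglyMeasurable)
    (fun k => (hW _).1.aestronglyMeasurable) (fun k => hu0 _) (fun k => hv0 _)
    (by
      filter_upwards [hc₁] with z hz
      exact hz.comp (hσ₂.comp hτ).tendsto_atTop)
    (by
      filter_upwards [hc₂] with z hz
      exact hz.comp hτ.tendsto_atTop)
    hWZ (unq_tail ht₁ (hσ₂.comp hτ)) (unq_tail ht₂ hτ)
    (fun k => ⟨by
      have := (hW (ρ k)).1.integrable_norm_rpow (by simpa using hq0 (ρ k))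
        ENNReal.ofReal_ne_top
      simpa [ENNReal.toReal_ofReal (hq0 (ρ k)).le] using this, hmsW _⟩)
  have hWb : ∀ k, 2 ^ (2 - p k) ≤ S k * (ps n (p k) - 1) *
      ∫ z, bq (ps n (p k)) (u k z) (v k z) * W k z ^ 2 := by
    intro k
    have h1 := (hD k).2.2.2.2.1
    have h2 : ∫ z, bq (ps n (p k)) (u k z) (v k z) * (u k z - v k z) ^ 2 =
        m k ^ 2 * ∫ z, bq (ps n (p k)) (u k z) (v k z) * W k z ^ 2 := by
      rw [← integral_const_mul]
      refine integral_congr_ae (Eventually.of_forall fun z => ?_)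
      simp only [hWdef]
      have := (hm0 k).ne'
      field_simp
    rw [h2, ← hmsq k] at h1
    have h3 : 0 < m k ^ 2 := by have := hm0 k; positivity
    have h4 : 2 ^ (2 - p k) * m k ^ 2 ≤ (S k * (ps n (p k) - 1) *
        ∫ z, bq (ps n (p k)) (u k z) (v k z) * W k z ^ 2) * m k ^ 2 := by
      calc _ ≤ _ := h1
        _ = _ := by ring
    exact le_of_mul_le_mul_right h4 h3
  have hmain : 1 ≤ T * (ps n 2 - 1) * ∫ z, ub n z ^ (ps n 2 - 2) * Z z ^ 2 := by
    have h1 : Tendsto (fun k => (2 : ℝ) ^ (2 - p (ρ k))) atTop (𝓝 ((2 : ℝ) ^ ((2 : ℝ) - 2))) :=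
      (tendsto_const_nhds (x := (2 : ℝ))).rpow (tendsto_const_nhds.sub hpρ)
        (Or.inl (by norm_num))
    have h2 : Tendsto (fun k => S (ρ k) * (ps n (p (ρ k)) - 1) *
        ∫ z, bq (ps n (p (ρ k))) (u (ρ k) z) (v (ρ k) z) * W (ρ k) z ^ 2) atTop
        (𝓝 (T * (ps n 2 - 1) * ∫ z, ub n z ^ (ps n 2 - 2) * Z z ^ 2)) :=
      (hSρ.mul (hqt.sub_const 1)).mul hl1
    have h3 := le_of_tendsto_of_tendsto' h1 h2 (fun k => hWb _)
    have h4 : (2 : ℝ) ^ ((2 : ℝ) - 2) = 1 := by norm_num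
    rw [h4] at h3
    exact h3
  have hWc : ∀ k, ∫ z, cq (ps n (p k)) (u k z) (v k z) * W k z = 0 := by
    intro k
    have h1 := (hD k).2.2.2.2.2.1
    have h2 : ∀ z, cq (ps n (p k)) (u k z) (v k z) * W k z =
        (m k)⁻¹ * (cq (ps n (p k)) (u k z) (v k z) * (u k z - v k z)) := by
      intro z
      simp only [hWdef]
      ring
    simp only [h2]
    rw [integral_const_mul, h1, mul_zero]
  have hWr : ∀ (k : ℕ) (i : Option (Fin n)) (b : Bool),
      ∫ z, cq (ps n (p k)) (u k z) (v k z) * W k z * rz i b z = 0 := by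
    intro k i b
    have h1 := (hD k).2.2.2.2.2.2 i b
    have h2 : ∀ z, cq (ps n (p k)) (u k z) (v k z) * W k z * rz i b z =
        (m k)⁻¹ * (cq (ps n (p k)) (u k z) (v k z) * (u k z - v k z) * rz i b z) := by
      intro z
      simp only [hWdef]
      ring
    simp only [h2]
    rw [integral_const_mul, h1, mul_zero]
  have horth : ∫ z, ub n z ^ (ps n 2 - 1) * Z z = 0 := by
    have h1 := hl2 (fun _ => 1) measurable_const (fun z => by simp)
    simp only [mul_one] at h1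
    refine tendsto_nhds_unique h1 ?_
    simp only [hWc]
    exact tendsto_const_nhds
  have horth2 : ∀ (i : Option (Fin n)) (b : Bool),
      ∫ z, ub n z ^ (ps n 2 - 1) * Z z * rz i b z = 0 := by
    intro i b
    have h1 := hl2 (rz i b) (unq_rz i b) ((hZID n hn).2.1 i b)
    refine tendsto_nhds_unique h1 ?_
    simp only [hWr]
    exact tendsto_const_nhds
  have hZ0 := hGAP n hn T hT Z D' hD' horth horth2 (hD'e.trans hmain)
  have h0 : ∫ z, ub n z ^ (ps n 2 - 2) * Z z ^ 2 = 0 := by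
    rw [integral_eq_zero_of_ae]
    filter_upwards [hZ0] with z hz
    rw [hz]
    simp
  rw [h0, mul_zero] at hmain
  linarith

end Pool.Agent.H27.HP
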