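import Pool.Agent.H27.HB.TX

/-!
# The horizontal Sobolev inequality for `p > 2` close to `2`: targets
-/

set_option autoImplicit false

namespace Pool.Agent.H27.HP
open MeasureTheory Set Filter Topology Pool.Agent.H80.HS Pool.Agent.H93.HQ Pool.Agent.H27.HB
open scoped ContDiff ENNReal

/-- The weighted norm of the difference of two gradients. -/
noncomputable def N3 {n : ℕ} (p : ℝ) (g h : H n → G n) : ℝ :=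
  ∫ z, (‖g z‖ + ‖h z‖) ^ (p - 2) * ‖g z - h z‖ ^ 2

/-- MNP: strong monotonicity for `p ≥ 2`. -/
def T_MNP : Prop := ∀ (n : ℕ) (p : ℝ), 2 ≤ p → ∀ a b : G n,
  2 ^ (2 - p) * (‖a‖ + ‖b‖) ^ (p - 2) * ‖a - b‖ ^ 2 ≤
    inner ℝ (‖a‖ ^ (p - 2) • a - ‖b‖ ^ (p - 2) • b) (a - b)

/-- CVP: strong convexity for `p ≥ 2`. -/
def T_CVP : Prop := ∀ (n : ℕ) (p : ℝ), 2 ≤ p → ∀ a b : G n,
  ‖a‖ ^ p + p * (‖a‖ ^ (p - 2) * inner ℝ a (b - a)) +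
    6 ^ (2 - p) * (‖a‖ + ‖b‖) ^ (p - 2) * ‖a - b‖ ^ 2 ≤ ‖b‖ ^ p

/-- CLK: uniform convexity for `p ≥ 2`. -/
def T_CLK : Prop := ∀ (n : ℕ) (p : ℝ), 2 ≤ p → ∀ f g : H n → G n,
  MemLp f (ENNReal.ofReal p) → MemLp g (ENNReal.ofReal p) →
  en p (fun z => f z - g z) ≤ 2 ^ (p - 1) * (en p f + en p g -
    2 * en p (fun z => (1 / 2 : ℝ) • (f z + g z)))

/-- EXP: existence of centred extremals for `p ≥ 2`. -/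
def T_EXP : Prop := ∀ n : ℕ, 1 ≤ n → ∀ p S : ℝ, 2 ≤ p → p < 2 * n + 2 → Opt n p S →
  ∃ (u : H n → ℝ) (g : H n → G n), Ext p S u g ∧ Cen (fun z => |u z| ^ ps n p)

/-- CTP: centred extremals converge to the Jerison-Lee function. -/
def T_CTP : Prop := ∀ n : ℕ, 1 ≤ n → ∀ (p S : ℕ → ℝ) (T : ℝ) (u : ℕ → H n → ℝ)
  (g : ℕ → H n → G n), (∀ k, 2 ≤ p k ∧ p k ≤ 5 / 2) → Tendsto p atTop (𝓝 2) →
  (∀ k, Opt n (p k) (S k)) → Opt n 2 T → (∀ k, Ext (p k) (S k) (u k) (g k)) →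
  (∀ k, ∀ᵐ z, 0 ≤ u k z) → (∀ k, Cen (fun z => |u k z| ^ ps n (p k))) →
  ∃ σ : ℕ → ℕ, StrictMono σ ∧
    (∀ᵐ z, Tendsto (fun k => u (σ k) z) atTop (𝓝 (ub n z))) ∧
    Tail (fun k => ps n (p (σ k))) (fun k => u (σ k)) ∧
    Tendsto (fun k => S (σ k)) atTop (𝓝 T)

/-- UTP: uniformity in the exponent. -/
def T_UTP : Prop := ∀ n : ℕ, 1 ≤ n → ∃ A : ℝ, 0 < A ∧ ∀ p : ℝ, 2 ≤ p → p ≤ 17 / 8 →
    A⁻¹ ≤ ms (ps n p) (u0 n) ∧ ms (ps n p) (u0 n) ≤ A ∧ en p (hg (u0 n)) ≤ A ∧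
    ∫ z, |u0 n z ^ ps n p - u0 n z ^ ps n 2| ≤ A * (p - 2)

/-- LNC: the linear part, first half. -/
def T_LNC : Prop := ∀ n : ℕ, 1 ≤ n → ∃ A : ℝ, 0 < A ∧ ∀ p : ℝ, 2 ≤ p → p ≤ 17 / 8 →
  ∀ h : H n → G n, MemLp h (ENNReal.ofReal p) →
    |∫ z, (‖hg (u0 n) z‖ ^ (p - 2) - 1) * inner ℝ (hg (u0 n) z) (h z)| ≤
      A * (p - 2) * en p h ^ (1 / p)

/-- LND: the linear part, second half. -/
def T_LND : Prop := ∀ n : ℕ, 1 ≤ n → ∃ A : ℝ, 0 < A ∧ ∀ p : ℝ, 2 ≤ p → p ≤ 17 / 8 →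
  ∀ f : H n → ℝ, MemLp f (ENNReal.ofReal (ps n p)) →
    |∫ z, (u0 n z ^ (ps n 2 - 1) - u0 n z ^ (ps n p - 1)) * f z| ≤
      A * (p - 2) * ms (ps n p) f ^ (1 / ps n p)

/-- WKQ: the weak equation of the Jerison-Lee function, tested with `Cl p`. -/
def T_WKQ : Prop := ∀ n : ℕ, 1 ≤ n → ∀ p : ℝ, 2 ≤ p → p ≤ 17 / 8 →
  ∀ (f : H n → ℝ) (h : H n → G n), Cl p f h →
  Integrable (fun z => inner ℝ (hg (u0 n) z) (h z)) ∧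
  Integrable (fun z => ‖hg (u0 n) z‖ ^ (p - 2) * inner ℝ (hg (u0 n) z) (h z)) ∧
  Integrable (fun z => u0 n z ^ (ps n 2 - 1) * f z) ∧
  Integrable (fun z => u0 n z ^ (ps n p - 1) * f z) ∧
  ∫ z, inner ℝ (hg (u0 n) z) (h z) = 4 * (n : ℝ) ^ 2 * ∫ z, u0 n z ^ (ps n 2 - 1) * f z

/-- LOP: the lower bound for the energy. -/
def T_LOP : Prop := ∀ n : ℕ, 1 ≤ n → ∀ B : ℝ, ∃ A : ℝ, 0 < A ∧ ∀ p S : ℝ, 2 < p →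
  p ≤ 17 / 8 → Opt n p S → ∀ (v : H n → ℝ) (g : H n → G n), Cl p v g →
  (∀ᵐ z, 0 ≤ v z) → ms (ps n p) v = ms (ps n p) (u0 n) → en p g ≤ B →
  Integrable (fun z => (‖hg (u0 n) z‖ + ‖g z‖) ^ (p - 2) * ‖hg (u0 n) z - g z‖ ^ 2) ∧
  en p (fun z => g z - hg (u0 n) z) ≤ N2 p g ∧
  ∫ z, bb (ps n p) (u0 n z) (v z) * (v z - u0 n z) ^ 2 ≤ A * N2 p g ^ (2 / p) ∧
  en p (hg (u0 n)) + 6 ^ (2 - p) * N2 p g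
    - p * (4 * (n : ℝ) ^ 2) * ((ps n p - 1) / 2) *
      (∫ z, bb (ps n p) (u0 n z) (v z) * (v z - u0 n z) ^ 2)
    - A * (p - 2) * N2 p g ^ (1 / p) ≤ en p g

/-- RAP: the rate of convergence. -/
def T_RAP : Prop := ∀ n : ℕ, 1 ≤ n → ∃ A δ : ℝ, 0 < A ∧ 0 < δ ∧ δ ≤ 1 / 8 ∧ ∀ p S : ℝ,
  2 < p → p < 2 + δ → Opt n p S → ∀ (v : H n → ℝ) (g : H n → G n),
  Ext p S (fun z => ms (ps n p) (u0 n) ^ (-(1 / ps n p)) * v z)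
    (fun z => ms (ps n p) (u0 n) ^ (-(1 / ps n p)) • g z) → (∀ᵐ z, 0 ≤ v z) →
  Cen (fun z => |v z| ^ ps n p) → Real.sqrt (N2 p g) ≤ A * (p - 2)

/-- COP: asymptotics of the optimal constant and of the extremals. -/
def T_COP : Prop := ∀ n : ℕ, 1 ≤ n → ∃ A δ : ℝ, 0 < A ∧ 0 < δ ∧ δ ≤ 1 / 8 ∧ ∀ p S : ℝ,
  2 < p → p < 2 + δ → Opt n p S →
  KK n p ≤ S⁻¹ ∧ S⁻¹ ≤ KK n p + A * (p - 2) ^ 2 ∧
  ∀ (U : H n → ℝ) (g : H n → G n), Ext p S U g → (∀ᵐ z, 0 ≤ U z) →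
    Cen (fun z => |U z| ^ ps n p) →
    ms (ps n p) (fun z => U z - yq n (ps n p) z) ^ (1 / ps n p) ≤ A * (p - 2)

/-- DIP: the difference of two centred extremals. -/
def T_DIP : Prop := ∀ n : ℕ, 1 ≤ n → ∀ p S : ℝ, 2 ≤ p → p < 2 * n + 2 → Opt n p S →
  ∀ (u v : H n → ℝ) (g h : H n → G n), Ext p S u g → Ext p S v h → (∀ᵐ z, 0 ≤ u z) →
  (∀ᵐ z, 0 ≤ v z) → Cen (fun z => |u z| ^ ps n p) → Cen (fun z => |v z| ^ ps n p) →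
  Cl p (fun z => u z - v z) (fun z => g z - h z) ∧
  Integrable (fun z => (‖g z‖ + ‖h z‖) ^ (p - 2) * ‖g z - h z‖ ^ 2) ∧
  S * ms (ps n p) (fun z => u z - v z) ^ th n p ≤ N3 p g h ∧
  en p (fun z => g z - h z) ≤ N3 p g h ∧
  2 ^ (2 - p) * N3 p g h ≤
    S * (ps n p - 1) * ∫ z, bq (ps n p) (u z) (v z) * (u z - v z) ^ 2 ∧
  ∫ z, cq (ps n p) (u z) (v z) * (u z - v z) = 0 ∧
  ∀ i b, ∫ z, cq (ps n p) (u z) (v z) * (u z - v z) * rz i b z = 0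

/-- LSW: weighted lower semicontinuity of the energy as `p → 2+`. -/
def T_LSW : Prop := ∀ n : ℕ, 1 ≤ n → ∀ (p : ℕ → ℝ) (C : ℝ) (W : ℕ → H n → ℝ)
  (D : ℕ → H n → G n) (ρ : ℕ → H n → ℝ) (Z : H n → ℝ), (∀ k, 2 ≤ p k ∧ p k ≤ 5 / 2) →
  Tendsto p atTop (𝓝 2) → (∀ k, Cl (p k) (W k) (D k)) → (∀ k, ms (ps n (p k)) (W k) ≤ C) →
  (∀ k, en (p k) (D k) ≤ C) → (∀ k, AEStronglyMeasurable (ρ k) volume) →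
  (∀ k z, 0 ≤ ρ k z) → (∀ k, Integrable (fun z => ρ k z * ‖D k z‖ ^ 2)) →
  (∀ k, ∫ z, ρ k z * ‖D k z‖ ^ 2 ≤ 1) →
  (∀ R τ η : ℝ, 0 < τ → 0 < η → ∀ᶠ k in atTop,
    volume {z : H n | N z ≤ R ∧ ρ k z < 1 - τ} ≤ ENNReal.ofReal η) →
  AEStronglyMeasurable Z volume → (∀ᵐ z, Tendsto (fun k => W k z) atTop (𝓝 (Z z))) →
  ∃ D' : H n → G n, Cl 2 Z D' ∧ en 2 D' ≤ 1

/-- MSR: the set on which the weight is small has small measure. -/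
def T_MSR : Prop := ∀ n : ℕ, 1 ≤ n → ∀ (p c : ℕ → ℝ) (C : ℝ) (g : ℕ → H n → G n),
  (∀ k, 2 < p k ∧ p k ≤ 5 / 2) → Tendsto p atTop (𝓝 2) → (∀ k, 0 < c k ∧ c k ≤ C) →
  (∀ k, AEStronglyMeasurable (g k) volume) →
  (∀ k, Integrable (fun z => (‖hg (u0 n) z‖ + ‖c k • g k z‖) ^ (p k - 2) *
    ‖hg (u0 n) z - c k • g k z‖ ^ 2)) →
  Tendsto (fun k => N2 (p k) (fun z => c k • g k z)) atTop (𝓝 0) →
  ∀ R τ η : ℝ, 0 < τ → 0 < η → ∀ᶠ k in atTop,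
    volume {z : H n | N z ≤ R ∧ ‖g k z‖ ^ (p k - 2) < 1 - τ} ≤ ENNReal.ofReal η

/-- UNP: uniqueness of centred extremals up to a very small error. -/
def T_UNP : Prop := ∀ n : ℕ, 1 ≤ n → ∀ M : ℝ, 0 < M → ∃ δ : ℝ, 0 < δ ∧ δ ≤ 1 / 8 ∧
  ∀ p S : ℝ, 2 < p → p < 2 + δ → Opt n p S →
  ∀ (u v : H n → ℝ) (g h : H n → G n), Ext p S u g → Ext p S v h →
  (∀ᵐ z, 0 ≤ u z) → (∀ᵐ z, 0 ≤ v z) → Cen (fun z => |u z| ^ ps n p) →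
  Cen (fun z => |v z| ^ ps n p) →
  ms (ps n p) (fun z => u z - v z) ≤ Real.exp (-(M / (p - 2)))

/-- The final statement. -/
def T_FI3 : Prop := ∀ n : ℕ, 1 ≤ n → ∃ A : ℝ, 0 < A ∧ ∀ M : ℝ, 0 < M → ∃ δ : ℝ, 0 < δ ∧
  δ < 1 ∧ ∀ p : ℝ, 2 < p → p < 2 + δ → ∃ C : ℝ, IsLeast {C : ℝ | SobolevIneq ℝ n p C} C ∧
  0 < KK n p ∧ KK n p ≤ C ∧ C ≤ KK n p + A * (p - 2) ^ 2 ∧
  ∃ U : H n → ℝ, (∀ z, 0 ≤ U z) ∧ ms (ps n p) U = 1 ∧ Extr n p C U ∧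
    ms (ps n p) (fun z => U z - yq n (ps n p) z) ^ (1 / ps n p) ≤ A * (p - 2) ∧
    (∀ u : H n → ℝ, Extr n p C u → ∃ (c : ℝ) (a : H n) (r : ℝ), c ≠ 0 ∧ 0 < r ∧
      ms (ps n p) (fun z => u z - c * U (dil r (mul a z))) ^ (1 / ps n p) ≤
        Real.exp (-(M / (p - 2))) * ms (ps n p) u ^ (1 / ps n p)) ∧
    (∀ B ∈ Matrix.unitaryGroup (Fin n) ℂ,
      ms (ps n p) (fun z => U (ua B z) - U z) ^ (1 / ps n p) ≤ Real.exp (-(M / (p - 2)))) ∧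
    ms (ps n p) (fun z => U (rfn z) - U z) ^ (1 / ps n p) ≤ Real.exp (-(M / (p - 2)))

end Pool.Agent.H27.HP
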