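import Pool.Agent.H27.HB.RAT
import Pool.Agent.H27.HP.T

/-!
The case `p > 2`: extraction of limits.
-/

set_option autoImplicit false

namespace Pool.Agent.H27.HP
open MeasureTheory Set Filter Topology Pool.Agent.H80.HS Pool.Agent.H93.HQ Pool.Agent.H27.HB
open scoped ContDiff ENNReal

lemma rap_exp {n : ℕ} (hn : 1 ≤ n) {p : ℝ} (h1 : 2 < p) (h2 : p < 2 + 1 / 8) :
    2 < ps n p ∧ ps n p ≤ 5 ∧ 1 / 3 ≤ th n p := by
  have hn' : (1 : ℝ) ≤ n := by exact_mod_cast hn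
  have h3 : (0 : ℝ) < 2 * n + 2 - p := by linarith
  refine ⟨?_, ?_, ?_⟩
  · unfold ps
    rw [lt_div_iff₀ h3]
    nlinarith
  · unfold ps
    rw [div_le_iff₀ h3]
    nlinarith
  · unfold th
    rw [le_div_iff₀ (by positivity)]
    linarith

/-- Extraction of a weak limit. -/
lemma rap_extract (hREL : T_REL) (hLSC : T_LSC) (hSOB : T_SOB) (hOPT : T_OPT) (hCLT : T_CLT)
    {n : ℕ} (hn : 1 ≤ n) (p S A : ℕ → ℝ) (M1 : ℝ) (hM11 : 1 ≤ M1)
    (W : ℕ → H n → ℝ) (D : ℕ → H n → G n)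
    (hp1 : ∀ k, 2 < p k) (hp2 : ∀ k, p k < 2 + 1 / 8)
    (hpt : Tendsto p atTop (𝓝 2)) (hS : ∀ k, Opt n (p k) (S k))
    (hW : ∀ k, Cl (p k) (W k) (D k)) (hDe : ∀ k, en (p k) (D k) ≤ A k) (hA0 : ∀ k, 0 < A k)
    (hAb : ∀ k, A k ≤ M1) :
    ∃ K : ℝ, (∀ k, ms (ps n (p k)) (W k) ≤ K) ∧ ∃ (τ : ℕ → ℕ) (Z : H n → ℝ),
      StrictMono τ ∧ Measurable Z ∧ (∀ᵐ z, Tendsto (fun k => W (τ k) z) atTop (𝓝 (Z z))) ∧
      (Tendsto A atTop (𝓝 1) → ∃ D' : H n → G n, Cl 2 Z D' ∧ en 2 D' ≤ 1) := by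
  have hn' : (1 : ℝ) ≤ n := by exact_mod_cast hn
  have hx := fun k => rap_exp hn (hp1 k) (hp2 k)
  have hpQ : ∀ k, p k < 2 * n + 2 := fun k => by linarith [hp2 k]
  have hp11 : ∀ k, 1 < p k := fun k => by linarith [hp1 k]
  obtain ⟨L, M, hL, hLM⟩ := hOPT n hn 2 (17 / 8) (by norm_num) (by norm_num) (by linarith)
  have hSL : ∀ k, L ≤ S k ∧ S k ≤ M := fun k =>
    (hLM (p k) (hp1 k).le (by linarith [hp2 k])).2 (S k) (hS k)
  -- approximation
  have Hψ : ∀ k, ∃ ψ : H n → ℝ, Tst ψ ∧ ms (ps n (p k)) (fun z => ψ z - W k z) ≤ (1 / 2) ^ k ∧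
      en (p k) (fun z => hg ψ z - D k z) ≤ 1 / ((k : ℝ) + 1) := by
    intro k
    obtain ⟨-, -, φ, h1, h2, h3⟩ := hW k
    have e1 := h2.eventually_le_const (by positivity : (0 : ℝ) < (1 / 2) ^ k)
    have e2 := h3.eventually_le_const (by positivity : (0 : ℝ) < 1 / ((k : ℝ) + 1))
    obtain ⟨m, hm1, hm2⟩ := (e1.and e2).exists
    exact ⟨φ m, h1 m, hm1, hm2⟩
  choose ψ hψ hψm hψe using Hψ
  have hq1 : ∀ k, 1 < ps n (p k) := fun k => (fin_exp hn (hp11 k) (hpQ k)).1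
  have hψcl : ∀ k, Cl (p k) (ψ k) (hg (ψ k)) := fun k =>
    hCLT n hn (p k) (hp11 k) (hpQ k) (ψ k) (hψ k)
  set B : ℕ → ℝ := fun k => (A k ^ (1 / p k) + (1 / ((k : ℝ) + 1)) ^ (1 / p k)) ^ p k with hB
  have hBe : ∀ k, en (p k) (hg (ψ k)) ≤ B k := by
    intro k
    have h1 := unq_mink (hp11 k).le (hψcl k).2.1 (hW k).2.1
    have h0 : 0 ≤ en (p k) (hg (ψ k)) :=
      integral_nonneg fun z => Real.rpow_nonneg (norm_nonneg _) _
    have hp0 : 0 < p k := by linarith [hp11 k]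
    have h2 : en (p k) (hg (ψ k)) ^ (1 / p k) ≤
        A k ^ (1 / p k) + (1 / ((k : ℝ) + 1)) ^ (1 / p k) := by
      refine h1.trans ?_
      rw [add_comm]
      refine add_le_add ?_ ?_
      · exact Real.rpow_le_rpow (integral_nonneg fun z => Real.rpow_nonneg (norm_nonneg _) _)
          (hDe k) (by positivity)
      · exact Real.rpow_le_rpow (integral_nonneg fun z => Real.rpow_nonneg (norm_nonneg _) _)
          (hψe k) (by positivity)
    calc en (p k) (hg (ψ k)) = (en (p k) (hg (ψ k)) ^ (1 / p k)) ^ p k := by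
          rw [← Real.rpow_mul h0, one_div, inv_mul_cancel₀ hp0.ne', Real.rpow_one]
      _ ≤ B k := Real.rpow_le_rpow (Real.rpow_nonneg h0 _) h2 hp0.le
  have hk1 : ∀ k : ℕ, (1 : ℝ) / ((k : ℝ) + 1) ≤ 1 := fun k => by
    rw [div_le_one (by positivity)]; linarith [k.cast_nonneg (α := ℝ)]
  have hBb : ∀ k, B k ≤ (M1 + 1) ^ (3 : ℝ) := by
    intro k
    have hp0 : 0 < p k := by linarith [hp11 k]
    have h1 : A k ^ (1 / p k) ≤ M1 := by
      calc A k ^ (1 / p k) ≤ M1 ^ (1 / p k) :=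
            Real.rpow_le_rpow (hA0 k).le (hAb k) (by positivity)
        _ ≤ M1 ^ (1 : ℝ) := Real.rpow_le_rpow_of_exponent_le hM11 (by
            rw [div_le_one hp0]; exact (hp11 k).le)
        _ = M1 := Real.rpow_one _
    have h2 : (1 / ((k : ℝ) + 1)) ^ (1 / p k) ≤ 1 :=
      Real.rpow_le_one (by positivity) (hk1 k) (by positivity)
    calc B k ≤ (M1 + 1) ^ p k := Real.rpow_le_rpow (by
          have := (hA0 k).le
          positivity) (by linarith) hp0.le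
      _ ≤ _ := Real.rpow_le_rpow_of_exponent_le (by linarith) (by linarith [hp2 k])
  set K : ℝ := max 1 (M1 / L) with hK
  have hK1 : 1 ≤ K := le_max_left _ _
  have hmsW : ∀ k, ms (ps n (p k)) (W k) ≤ K ^ (3 : ℝ) := by
    intro k
    have h0 : 0 ≤ ms (ps n (p k)) (W k) :=
      integral_nonneg fun z => Real.rpow_nonneg (abs_nonneg _) _
    have h1 := hSOB n hn (p k) (S k) (hp11 k) (hpQ k) (hS k) (W k) (D k) (hW k)
    have hth := (hx k).2.2
    have h2 : ms (ps n (p k)) (W k) ^ th n (p k) ≤ K := by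
      refine le_trans ?_ (le_max_right _ _)
      rw [le_div_iff₀ hL]
      have h3 : L * ms (ps n (p k)) (W k) ^ th n (p k) ≤
          S k * ms (ps n (p k)) (W k) ^ th n (p k) :=
        mul_le_mul_of_nonneg_right (hSL k).1 (Real.rpow_nonneg h0 _)
      have h4 := hDe k
      have h5 := hAb k
      linarith
    have hth0 : 0 < th n (p k) := by linarith
    calc ms (ps n (p k)) (W k) = (ms (ps n (p k)) (W k) ^ th n (p k)) ^ (1 / th n (p k)) := by
          rw [← Real.rpow_mul h0, mul_one_div, div_self hth0.ne', Real.rpow_one]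
      _ ≤ K ^ (1 / th n (p k)) := Real.rpow_le_rpow (Real.rpow_nonneg h0 _) h2 (by positivity)
      _ ≤ K ^ (3 : ℝ) := Real.rpow_le_rpow_of_exponent_le hK1 (by
          rw [div_le_iff₀ hth0]; linarith)
  have hKK : 1 ≤ K ^ (3 : ℝ) := Real.one_le_rpow hK1 (by norm_num)
  have hmsψ : ∀ k, ms (ps n (p k)) (ψ k) ≤ (1 + K ^ (3 : ℝ)) ^ (5 : ℝ) := by
    intro k
    have h0 : 0 ≤ ms (ps n (p k)) (ψ k) :=
      integral_nonneg fun z => Real.rpow_nonneg (abs_nonneg _) _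
    have h0W : 0 ≤ ms (ps n (p k)) (W k) :=
      integral_nonneg fun z => Real.rpow_nonneg (abs_nonneg _) _
    have h0D : 0 ≤ ms (ps n (p k)) (fun z => ψ k z - W k z) :=
      integral_nonneg fun z => Real.rpow_nonneg (abs_nonneg _) _
    have hq0 : 0 < ps n (p k) := by linarith [hq1 k]
    have h1 := unq_mink (hq1 k).le (hψcl k).1 (hW k).1
    simp only [Real.norm_eq_abs] at h1
    have h2 : ms (ps n (p k)) (fun z => ψ k z - W k z) ^ (1 / ps n (p k)) ≤ 1 :=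
      Real.rpow_le_one h0D ((hψm k).trans (pow_le_one₀ (by norm_num) (by norm_num)))
        (by positivity)
    have h3 : ms (ps n (p k)) (W k) ^ (1 / ps n (p k)) ≤ K ^ (3 : ℝ) := by
      calc ms (ps n (p k)) (W k) ^ (1 / ps n (p k)) ≤ (K ^ (3 : ℝ)) ^ (1 / ps n (p k)) :=
            Real.rpow_le_rpow h0W (hmsW k) (by positivity)
        _ ≤ (K ^ (3 : ℝ)) ^ (1 : ℝ) := Real.rpow_le_rpow_of_exponent_le hKK (by
            rw [div_le_one hq0]; exact (hq1 k).le)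
        _ = _ := Real.rpow_one _
    have h4 : ms (ps n (p k)) (ψ k) ^ (1 / ps n (p k)) ≤ 1 + K ^ (3 : ℝ) := by
      refine le_trans h1 ?_
      exact add_le_add h2 h3
    calc ms (ps n (p k)) (ψ k) = (ms (ps n (p k)) (ψ k) ^ (1 / ps n (p k))) ^ ps n (p k) := by
          rw [← Real.rpow_mul h0, one_div, inv_mul_cancel₀ hq0.ne', Real.rpow_one]
      _ ≤ (1 + K ^ (3 : ℝ)) ^ ps n (p k) :=
          Real.rpow_le_rpow (Real.rpow_nonneg h0 _) h4 hq0.le
      _ ≤ _ := Real.rpow_le_rpow_of_exponent_le (by linarith) (hx k).2.1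
  -- a convergent subsequence
  obtain ⟨τ, Z, hτ, hZm, hZ⟩ := hREL n hn 2 (17 / 8)
    (max ((1 + K ^ (3 : ℝ)) ^ (5 : ℝ)) ((M1 + 1) ^ (3 : ℝ))) p ψ
    (by norm_num) (by norm_num) (by linarith) (fun k => ⟨(hp1 k).le, by linarith [hp2 k]⟩)
    (fun k => hψ _) (fun k => (hmsψ _).trans (le_max_left _ _))
    (fun k => ((hBe _).trans (hBb _)).trans (le_max_right _ _))
  have hdiff : ∀ᵐ z, Tendsto (fun k => ψ k z - W k z) atTop (𝓝 0) := by
    refine unq_ae (f := fun k z => ψ k z - W k z) (q := fun k => ps n (p k)) (B := 5)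
      (fun k => ⟨(hq1 k).le, (hx k).2.1⟩) (fun k => ?_) hψm
    have hq0 : 0 < ps n (p k) := by linarith [hq1 k]
    have := ((hψcl k).1.sub (hW k).1).integrable_norm_rpow (by simpa using hq0)
      ENNReal.ofReal_ne_top
    simpa [ENNReal.toReal_ofReal hq0.le] using this
  have hWZ : ∀ᵐ z, Tendsto (fun k => W (τ k) z) atTop (𝓝 (Z z)) := by
    filter_upwards [hZ, hdiff] with z h1 h2
    have h3 := h1.sub (h2.comp hτ.tendsto_atTop)
    rw [sub_zero] at h3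
    refine h3.congr fun k => ?_
    change ψ (τ k) z - (ψ (τ k) z - W (τ k) z) = W (τ k) z
    ring
  refine ⟨K ^ (3 : ℝ), hmsW, τ, Z, hτ, hZm, hWZ, fun hAt => ?_⟩
  have hpρ : Tendsto (fun k => p (τ k)) atTop (𝓝 2) := hpt.comp hτ.tendsto_atTop
  have hAρ : Tendsto (fun k => A (τ k)) atTop (𝓝 1) := hAt.comp hτ.tendsto_atTop
  have hinv : Tendsto (fun k => 1 / p (τ k)) atTop (𝓝 (1 / 2)) :=
    tendsto_const_nhds.div hpρ (by norm_num)
  have hBρ : Tendsto (fun k => B (τ k)) atTop (𝓝 1) := by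
    have h1 : Tendsto (fun k => A (τ k) ^ (1 / p (τ k))) atTop (𝓝 (1 ^ (1 / 2 : ℝ))) :=
      hAρ.rpow hinv (Or.inl one_ne_zero)
    have h2 : Tendsto (fun k : ℕ => 1 / (((τ k : ℕ) : ℝ) + 1)) atTop (𝓝 0) :=
      (tendsto_one_div_add_atTop_nhds_zero_nat (𝕜 := ℝ)).comp hτ.tendsto_atTop
    have h3 : Tendsto (fun k => (1 / (((τ k : ℕ) : ℝ) + 1)) ^ (1 / p (τ k))) atTop
        (𝓝 (0 ^ (1 / 2 : ℝ))) := h2.rpow hinv (Or.inr (by norm_num))
    have h4 := (h1.add h3).rpow hpρ (Or.inr (by norm_num))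
    rw [Real.one_rpow, Real.zero_rpow (by norm_num), add_zero, Real.one_rpow] at h4
    exact h4
  exact hLSC n hn (fun k => p (τ k)) (fun k => B (τ k)) 1
    ((1 + K ^ (3 : ℝ)) ^ (5 : ℝ)) (fun k => ψ (τ k)) Z (fun k => ⟨hp11 _, hpQ _⟩) hpρ hBρ
    (fun k => hψ _) hZm.aestronglyMeasurable hZ (fun k => hmsψ _) (fun k => hBe _)

/-- Tails of bounded multiples. -/
lemma rap_tail {n : ℕ} {q c : ℕ → ℝ} {φ : ℕ → H n → ℝ} {C : ℝ} (h : Tail q φ)
    (hc : ∀ k, 0 < c k ∧ c k ≤ C) (hq : ∀ k, 0 < q k ∧ q k ≤ 5) (hC : 1 ≤ C) :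
    Tail q (fun k z => c k * φ k z) := by
  intro η hη
  obtain ⟨M, R, h1⟩ := h (η / C ^ (5 : ℝ)) (by positivity)
  refine ⟨C * max M 0, R, ?_⟩
  filter_upwards [h1] with k hk
  obtain ⟨h2, h3⟩ := hk
  obtain ⟨hc0, hcC⟩ := hc k
  obtain ⟨hq0, hq4⟩ := hq k
  have h4 : ∀ z, |c k * φ k z| ^ q k = c k ^ q k * |φ k z| ^ q k := by
    intro z
    rw [abs_mul, abs_of_pos hc0]
    exact Real.mul_rpow hc0.le (abs_nonneg _)
  simp only [h4]
  refine ⟨h2.const_mul _, ?_⟩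
  rw [integral_const_mul]
  have h5 : c k ^ q k ≤ C ^ (5 : ℝ) :=
    (Real.rpow_le_rpow hc0.le hcC hq0.le).trans (Real.rpow_le_rpow_of_exponent_le hC hq4)
  have hsub : {z : H n | C * max M 0 < |c k * φ k z| ∨ R < N z} ⊆
      {z : H n | M < |φ k z| ∨ R < N z} := by
    rintro z (hz | hz)
    · left
      rw [abs_mul, abs_of_pos hc0] at hz
      have h6 : c k * |φ k z| ≤ C * |φ k z| := mul_le_mul_of_nonneg_right hcC (abs_nonneg _)
      have h7 : C * max M 0 < C * |φ k z| := lt_of_lt_of_le hz h6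
      exact (le_max_left _ _).trans_lt (lt_of_mul_lt_mul_left h7 (by linarith))
    · exact Or.inr hz
  have h8 : ∫ z in {z : H n | C * max M 0 < |c k * φ k z| ∨ R < N z}, |φ k z| ^ q k ≤
      ∫ z in {z : H n | M < |φ k z| ∨ R < N z}, |φ k z| ^ q k :=
    setIntegral_mono_set h2.integrableOn
      (Eventually.of_forall fun z => Real.rpow_nonneg (abs_nonneg _) _)
      (Eventually.of_forall hsub)
  have h9 : 0 ≤ ∫ z in {z : H n | C * max M 0 < |c k * φ k z| ∨ R < N z}, |φ k z| ^ q k :=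
    integral_nonneg fun z => Real.rpow_nonneg (abs_nonneg _) _
  calc c k ^ q k * ∫ z in {z : H n | C * max M 0 < |c k * φ k z| ∨ R < N z}, |φ k z| ^ q k
      ≤ C ^ (5 : ℝ) * (η / C ^ (5 : ℝ)) :=
        mul_le_mul h5 (h8.trans h3) h9 (by positivity)
    _ = η := by field_simp



end Pool.Agent.H27.HP
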