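import Pool.Agent.H27.HP.COP

/-!
Row FI3 of MP_8352e3_an: the final statement for `p > 2`.
-/

set_option autoImplicit false

namespace Pool.Agent.H27.HP
open MeasureTheory Set Filter Topology Pool.Agent.H80.HS Pool.Agent.H93.HQ Pool.Agent.H27.HB
open scoped ContDiff ENNReal

theorem pf_FI3 (hCOP : T_COP) (hUNP : T_UNP) (hUCL : T_UCL) (hOPT : T_OPT) (hEXP : T_EXP)
    (hSGN : T_SGN) (hCLA : T_CLA) (hCLC : T_CLC) (hCNT : T_CNT) (hACC : T_ACC) (hACV : T_ACV)
    (hUNA : T_UNA) (hCEQ : T_CEQ) : T_FI3 := by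
  intro n hn
  have hn' : (1 : ℝ) ≤ n := by exact_mod_cast hn
  obtain ⟨A, δ₂, hA, hδ₂, hδ₂', hL⟩ := hCOP n hn
  refine ⟨A, hA, fun Mx hMx => ?_⟩
  obtain ⟨δ₁, hδ₁, hδ₁', hU⟩ := hUNP n hn (5 * Mx) (by positivity)
  refine ⟨min δ₁ δ₂, lt_min hδ₁ hδ₂, (min_le_left _ _).trans_lt (by linarith), ?_⟩
  intro p hp1 hp2
  have hpa : p < 2 + δ₁ := by have := min_le_left δ₁ δ₂; linarith
  have hpb : p < 2 + δ₂ := by have := min_le_right δ₁ δ₂; linarith
  have hp : 1 < p := by linarith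
  have hp8 : p < 2 + 1 / 8 := by linarith
  have hpQ : p < 2 * n + 2 := by linarith
  have h2p : 0 < p - 2 := by linarith
  obtain ⟨hq, hth, hqt⟩ := fin_exp hn hp hpQ
  obtain ⟨hq2, hq5, -⟩ := rap_exp hn hp1 hp8
  have hq0 : 0 < ps n p := by linarith
  obtain ⟨S, hS⟩ : ∃ S, Opt n p S := by
    obtain ⟨L, M, -, h⟩ := hOPT n hn p p hp le_rfl hpQ
    exact (h p le_rfl le_rfl).1
  have hS0 : 0 < S := hS.1
  obtain ⟨C, hCS⟩ : ∃ C : ℝ, C = S⁻¹ := ⟨_, rfl⟩
  obtain ⟨hL1, hL2, hL3⟩ := hL p S hp1 hpb hS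
  have hK0 : 0 < KK n p := (hUCL n hn p (by linarith) (by linarith)).2.2.2.2.1
  obtain ⟨U, g, hUg, hU0, hUc⟩ := cop_exist hEXP hSGN hCLA hCLC hn hp1.le hpQ hS
  have hU0' : ∀ᵐ z, 0 ≤ U z := Eventually.of_forall hU0
  -- the error
  have herr : ∀ x : ℝ, 0 ≤ x → x ≤ Real.exp (-(5 * Mx / (p - 2))) →
      x ^ (1 / ps n p) ≤ Real.exp (-(Mx / (p - 2))) := by
    intro x hx hxe
    calc x ^ (1 / ps n p) ≤ Real.exp (-(5 * Mx / (p - 2))) ^ (1 / ps n p) :=
          Real.rpow_le_rpow hx hxe (by positivity)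
      _ = Real.exp (-(5 * Mx / (p - 2)) * (1 / ps n p)) := (Real.exp_mul _ _).symm
      _ ≤ Real.exp (-(Mx / (p - 2))) := by
          refine Real.exp_le_exp.2 ?_
          have h1 : 0 < Mx / (p - 2) := div_pos hMx h2p
          have h2 : 5 * Mx / (p - 2) = 5 * (Mx / (p - 2)) := by ring
          rw [h2]
          have h3 : 1 ≤ 5 * (1 / ps n p) := by
            rw [mul_one_div, le_div_iff₀ hq0]
            linarith
          nlinarith
  have hnn : ∀ f : H n → ℝ, 0 ≤ ms (ps n p) f := fun f =>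
    integral_nonneg fun z => Real.rpow_nonneg (abs_nonneg _) _
  -- near uniqueness up to the action
  have key : ∀ (v : H n → ℝ) (h : H n → G n), Ext p S v h → (∀ᵐ z, 0 ≤ v z) →
      ∃ (a : H n) (r : ℝ), 0 < r ∧
        ms (ps n p) (fun z => v z - act p a r U z) ≤ Real.exp (-(5 * Mx / (p - 2))) := by
    intro v h hv hv0
    obtain ⟨a, r, hr, hc⟩ := hCNT n hn p hp hpQ v hv.1.1 (by rw [hv.2.1]; exact one_pos)
    have h1 := fin_ext_act hACC hACV hn hp hpQ a hr hv
    have h2 : ∀ᵐ z, 0 ≤ act p a r v z := by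
      filter_upwards [fin_ae hACV hn hp hpQ a hr hv0] with z hz
      exact mul_nonneg (Real.rpow_nonneg hr.le _) hz
    have h3 := hU p S hp1 hpa hS (act p a r v) U _ g h1 hUg h2 hU0' hc hUc
    refine ⟨dil r (-a), r⁻¹, inv_pos.2 hr, ?_⟩
    obtain ⟨-, -, -, -, -, -, h7⟩ := hACV n hn p hp hpQ a r hr
    obtain ⟨-, -, h8, -⟩ := hACV n hn p hp hpQ (dil r (-a)) r⁻¹ (inv_pos.2 hr)
    rw [← h8] at h3
    have h4 : (fun z => v z - act p (dil r (-a)) r⁻¹ U z) =
        act p (dil r (-a)) r⁻¹ (fun z => act p a r v z - U z) := by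
      ext z
      have h5 := congrFun (h7 v) z
      rw [← h5]
      simp only [act]
      ring
    rw [h4]
    exact h3
  refine ⟨C, by rw [hCS]; exact hS.2, hK0, by rw [hCS]; exact hL1, by rw [hCS]; exact hL2, U,
    hU0, hUg.2.1, ?_, hL3 U g hUg hU0' hUc, ?_, ?_, ?_⟩
  · refine ⟨fun h => ?_, g, hUg.1, ?_⟩
    · have h1 : ms (ps n p) U = 0 := by
        unfold ms
        rw [integral_eq_zero_of_ae]
        filter_upwards [h] with z hz
        rw [hz]
        simp [Real.zero_rpow hq0.ne']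
      rw [hUg.2.1] at h1
      exact one_ne_zero h1
    · rw [hUg.2.1, hUg.2.2, hCS, Real.one_rpow, inv_mul_cancel₀ hS0.ne']
  · rintro v ⟨hv, h, hcl, heq⟩
    rw [hCS] at heq
    obtain ⟨hm, hx⟩ := fin_norm hCLA hn hp hpQ hS0 hv hcl heq
    set m := ms (ps n p) v with hmdef
    set κ := m ^ (-(1 / ps n p)) with hκ
    have hκ0 : 0 < κ := Real.rpow_pos_of_pos hm _
    have main : ∀ s : ℝ, |s| = 1 → (∀ᵐ z, 0 ≤ (s * κ) * v z) →
        ∃ (c : ℝ) (a : H n) (r : ℝ), c ≠ 0 ∧ 0 < r ∧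
          ms (ps n p) (fun z => v z - c * U (dil r (mul a z))) ^ (1 / ps n p) ≤
            Real.exp (-(Mx / (p - 2))) * m ^ (1 / ps n p) := by
      intro s hs h0
      have hs0 : s ≠ 0 := by
        intro h; rw [h] at hs; simp at hs
      obtain ⟨a, r, hr, h1⟩ := key _ _ (hx s hs) h0
      refine ⟨(s * κ)⁻¹ * r ^ ((2 * n + 2 - p) / p), a, r, ?_, hr, ?_⟩
      · have : 0 < r ^ ((2 * n + 2 - p) / p) := Real.rpow_pos_of_pos hr _
        exact mul_ne_zero (inv_ne_zero (mul_ne_zero hs0 hκ0.ne')) this.ne'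
      · have h2 : (fun z => v z - (s * κ)⁻¹ * r ^ ((2 * n + 2 - p) / p) *
            U (dil r (mul a z))) =
            fun z => (s * κ)⁻¹ * ((s * κ) * v z - act p a r U z) := by
          ext z
          simp only [act]
          have h3 : s * κ ≠ 0 := mul_ne_zero hs0 hκ0.ne'
          rw [mul_sub, ← mul_assoc, inv_mul_cancel₀ h3, one_mul]
          ring
        have h4 : |(s * κ)⁻¹| = m ^ (1 / ps n p) := by
          rw [abs_inv, abs_mul, hs, one_mul, abs_of_pos hκ0, hκ, Real.rpow_neg hm.le, inv_inv]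
        rw [h2, fin_ms_mul, h4, ← Real.rpow_mul hm.le, one_div, inv_mul_cancel₀ hq0.ne',
          Real.rpow_one, Real.mul_rpow hm.le (hnn _), mul_comm (m ^ _)]
        have h5 := herr _ (hnn _) h1
        rw [one_div] at h5
        exact mul_le_mul_of_nonneg_right h5 (Real.rpow_nonneg hm.le _)
    rcases hSGN n hn p S hp hpQ hS _ _ (hx 1 (by simp)) with h1 | h1
    · exact main 1 (by simp) h1
    · refine main (-1) (by simp) ?_
      filter_upwards [h1] with z hz
      nlinarith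
  · intro B hB
    obtain ⟨hΦ, h1⟩ := hUNA n hn p hp hpQ (ua B) (Or.inl ⟨B, hB, rfl⟩)
    obtain ⟨g', h2, h3⟩ := h1 U g hUg.1
    have hint : Integrable (fun z => |U z| ^ ps n p) := by
      have := hUg.1.1.integrable_norm_rpow (by simpa using hq0) ENNReal.ofReal_ne_top
      simpa [ENNReal.toReal_ofReal hq0.le] using this
    have h4 : Ext p S (fun z => U (ua B z)) g' := by
      refine ⟨h2, ?_, by rw [h3, hUg.2.2]⟩
      rw [← hUg.2.1]
      have h5 := integral_map (μ := (volume : Measure (H n))) hΦ.measurable.aemeasurable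
        (f := fun z => |U z| ^ ps n p)
        (by rw [hΦ.map_eq]; exact hint.aestronglyMeasurable)
      rw [hΦ.map_eq] at h5
      exact h5.symm
    exact herr _ (hnn _) (hU p S hp1 hpa hS _ U g' g h4 hUg
      (Eventually.of_forall fun z => hU0 _) hU0'
      (hCEQ n hn (ua B) (Or.inl ⟨B, hB, rfl⟩) _ hint hUc) hUc)
  · obtain ⟨hΦ, h1⟩ := hUNA n hn p hp hpQ rfn (Or.inr rfl)
    obtain ⟨g', h2, h3⟩ := h1 U g hUg.1
    have hint : Integrable (fun z => |U z| ^ ps n p) := by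
      have := hUg.1.1.integrable_norm_rpow (by simpa using hq0) ENNReal.ofReal_ne_top
      simpa [ENNReal.toReal_ofReal hq0.le] using this
    have h4 : Ext p S (fun z => U (rfn z)) g' := by
      refine ⟨h2, ?_, by rw [h3, hUg.2.2]⟩
      rw [← hUg.2.1]
      have h5 := integral_map (μ := (volume : Measure (H n))) hΦ.measurable.aemeasurable
        (f := fun z => |U z| ^ ps n p)
        (by rw [hΦ.map_eq]; exact hint.aestronglyMeasurable)
      rw [hΦ.map_eq] at h5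
      exact h5.symm
    exact herr _ (hnn _) (hU p S hp1 hpa hS _ U g' g h4 hUg
      (Eventually.of_forall fun z => hU0 _) hU0'
      (hCEQ n hn rfn (Or.inr rfl) _ hint hUc) hUc)

end Pool.Agent.H27.HP
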